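import Pool.Agent.H12.HS.Defs

/-!
# Basic lemmas on `P2`, `AA`, configurations (proved, to be used by all modules)
-/

namespace Pool.Agent.H12.HS

open Matrix

universe u

section P2
variable {Ω : Type u} [Field Ω]

/-! ### coefficients -/

theorem cf_add (i j : ℕ) (p q : P2 Ω) : cf i j (p + q) = cf i j p + cf i j q := by
  simp [cf]

theorem cf_sub (i j : ℕ) (p q : P2 Ω) : cf i j (p - q) = cf i j p - cf i j q := by
  simp [cf]

theorem cf_neg (i j : ℕ) (p : P2 Ω) : cf i j (-p) = -cf i j p := by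
  simp [cf]

theorem cf_zero (i j : ℕ) : cf i j (0 : P2 Ω) = 0 := by
  simp [cf]

theorem cf_sum {ι : Type*} (s : Finset ι) (i j : ℕ) (p : ι → P2 Ω) :
    cf i j (∑ a ∈ s, p a) = ∑ a ∈ s, cf i j (p a) := by
  simp [cf]

theorem cf_mul (i j : ℕ) (p q : P2 Ω) : cf i j (p * q) =
    ∑ b ∈ Finset.HasAntidiagonal.antidiagonal j, ∑ a ∈ Finset.HasAntidiagonal.antidiagonal i,
      cf a.1 b.1 p * cf a.2 b.2 q := by
  simp [cf, PowerSeries.coeff_mul]

theorem ext_cf {p q : P2 Ω} (h : ∀ i j, cf i j p = cf i j q) : p = q := by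
  ext j i
  exact h i j

theorem ev0_eq_cf (p : P2 Ω) : ev0 p = cf 0 0 p := by
  simp [ev0, cf]

theorem cf_cst (i j : ℕ) (c : Ω) : cf i j (cst c) = if i = 0 ∧ j = 0 then c else 0 := by
  simp only [cf, cst, PowerSeries.coeff_C]
  by_cases hj : j = 0
  · subst hj; simp [PowerSeries.coeff_C]
  · simp [hj]

theorem cf_C (i j : ℕ) (p : PowerSeries Ω) :
    cf i j (PowerSeries.C p) = if j = 0 then PowerSeries.coeff i p else 0 := by
  simp only [cf, PowerSeries.coeff_C]
  split_ifs <;> simp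

theorem px_eq : px Ω = PowerSeries.C PowerSeries.X := rfl

theorem py_eq : py Ω = PowerSeries.X := rfl

theorem px_pow (n : ℕ) : px Ω ^ n = PowerSeries.C (PowerSeries.X ^ n) := by
  simp [px]

theorem cf_px_pow_mul (n i j : ℕ) (p : P2 Ω) :
    cf i j (px Ω ^ n * p) = if n ≤ i then cf (i - n) j p else 0 := by
  simp only [cf, px_pow, PowerSeries.coeff_C_mul, PowerSeries.coeff_X_pow_mul']

theorem cf_py_pow_mul (n i j : ℕ) (p : P2 Ω) :
    cf i j (py Ω ^ n * p) = if n ≤ j then cf i (j - n) p else 0 := by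
  simp only [cf, py_eq, PowerSeries.coeff_X_pow_mul']
  split_ifs <;> simp

theorem cf_cst_mul (i j : ℕ) (c : Ω) (p : P2 Ω) : cf i j (cst c * p) = c * cf i j p := by
  simp [cf, cst, PowerSeries.coeff_C_mul]

theorem cf_mapP {Ω' : Type u} [Field Ω'] (φ : Ω →+* Ω') (i j : ℕ) (p : P2 Ω) :
    cf i j (mapP φ p) = φ (cf i j p) := by
  simp [cf, mapP]

theorem ev0_px : ev0 (px Ω) = 0 := by simp [ev0, px]

theorem ev0_py : ev0 (py Ω) = 0 := by simp [ev0, py]

theorem ev0_cst (c : Ω) : ev0 (cst c) = c := by simp [ev0, cst]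

theorem ev0_g4 : ev0 (g4 Ω) = 0 := by simp [g4, ev0_px, ev0_py]

theorem lx_mul (p q : P2 Ω) : lx (p * q) = lx p * ev0 q + ev0 p * lx q := by
  simp only [lx, cf_mul, ev0_eq_cf, Finset.Nat.antidiagonal_zero, Finset.sum_singleton,
    Finset.Nat.antidiagonal_succ]
  simp
  ring

theorem ly_mul (p q : P2 Ω) : ly (p * q) = ly p * ev0 q + ev0 p * ly q := by
  simp only [ly, cf_mul, ev0_eq_cf, Finset.Nat.antidiagonal_zero, Finset.sum_singleton,
    Finset.Nat.antidiagonal_succ]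
  simp
  ring

theorem lx_add (p q : P2 Ω) : lx (p + q) = lx p + lx q := cf_add _ _ _ _
theorem ly_add (p q : P2 Ω) : ly (p + q) = ly p + ly q := cf_add _ _ _ _
theorem lx_sub (p q : P2 Ω) : lx (p - q) = lx p - lx q := cf_sub _ _ _ _
theorem ly_sub (p q : P2 Ω) : ly (p - q) = ly p - ly q := cf_sub _ _ _ _
theorem lx_zero : lx (0 : P2 Ω) = 0 := cf_zero _ _
theorem ly_zero : ly (0 : P2 Ω) = 0 := cf_zero _ _
theorem lx_sum {ι : Type*} (s : Finset ι) (p : ι → P2 Ω) :
    lx (∑ a ∈ s, p a) = ∑ a ∈ s, lx (p a) := cf_sum _ _ _ _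
theorem ly_sum {ι : Type*} (s : Finset ι) (p : ι → P2 Ω) :
    ly (∑ a ∈ s, p a) = ∑ a ∈ s, ly (p a) := cf_sum _ _ _ _
theorem lx_cst_mul (c : Ω) (p : P2 Ω) : lx (cst c * p) = c * lx p := cf_cst_mul _ _ _ _
theorem ly_cst_mul (c : Ω) (p : P2 Ω) : ly (cst c * p) = c * ly p := cf_cst_mul _ _ _ _
theorem lx_mapP {Ω' : Type u} [Field Ω'] (φ : Ω →+* Ω') (p : P2 Ω) :
    lx (mapP φ p) = φ (lx p) := cf_mapP _ _ _ _
theorem ly_mapP {Ω' : Type u} [Field Ω'] (φ : Ω →+* Ω') (p : P2 Ω) :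
    ly (mapP φ p) = φ (ly p) := cf_mapP _ _ _ _
theorem ev0_mapP {Ω' : Type u} [Field Ω'] (φ : Ω →+* Ω') (p : P2 Ω) :
    ev0 (mapP φ p) = φ (ev0 p) := by
  rw [ev0_eq_cf, ev0_eq_cf, cf_mapP]

theorem cst_mul (a b : Ω) : cst (a * b) = cst a * cst b := by simp [cst]
theorem cst_add (a b : Ω) : cst (a + b) = cst a + cst b := by simp [cst]
theorem cst_one : cst (1 : Ω) = 1 := by simp [cst]
theorem cst_zero : cst (0 : Ω) = 0 := by simp [cst]
theorem algebraMap_P2 (c : Ω) : algebraMap Ω (P2 Ω) c = cst c := by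
  simp [cst, PowerSeries.algebraMap_apply]
theorem algebraMap_AA (c : Ω) : algebraMap Ω (AA Ω) c = ⟨cst c, 0⟩ := by
  rw [← algebraMap_P2]; rfl
theorem mapP_cst {Ω' : Type u} [Field Ω'] (φ : Ω →+* Ω') (c : Ω) :
    mapP φ (cst c) = cst (φ c) := by simp [mapP, cst]

/-! ### units, divisibility -/

theorem isUnit_P2 (p : P2 Ω) : IsUnit p ↔ ev0 p ≠ 0 := by
  rw [PowerSeries.isUnit_iff_constantCoeff, PowerSeries.isUnit_iff_constantCoeff,
    isUnit_iff_ne_zero]
  rfl

theorem px_ne_zero : px Ω ≠ 0 := by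
  intro h
  have := congrArg (cf 1 0) h
  simp [cf, px] at this

theorem py_ne_zero : py Ω ≠ 0 := by
  intro h
  have := congrArg (cf 0 1) h
  simp [cf, py] at this

theorem py_dvd_iff (p : P2 Ω) : py Ω ∣ p ↔ PowerSeries.constantCoeff p = 0 :=
  PowerSeries.X_dvd_iff

/-- every element with value zero is in `(x,y)` -/
theorem exists_of_ev0 (p : P2 Ω) (hp : ev0 p = 0) : ∃ a b, p = px Ω * a + py Ω * b := by
  have h1 : py Ω ∣ p - PowerSeries.C (PowerSeries.constantCoeff p) := by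
    rw [py_dvd_iff]; simp
  obtain ⟨b, hb⟩ := h1
  have h2 : (PowerSeries.X : PowerSeries Ω) ∣ PowerSeries.constantCoeff p := by
    rw [PowerSeries.X_dvd_iff]; exact hp
  obtain ⟨a, ha⟩ := h2
  refine ⟨PowerSeries.C a, b, ?_⟩
  rw [px, ← map_mul, ← ha, ← hb]
  ring

/-- truncation: `p = ∑_{i,j<N} c_ij x^i y^j + x^N q1 + y^N q2` -/
theorem trunc_P2 (N : ℕ) (p : P2 Ω) : ∃ q1 q2 : P2 Ω,
    p = (∑ i ∈ Finset.range N, ∑ j ∈ Finset.range N, cst (cf i j p) * px Ω ^ i * py Ω ^ j) +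
      px Ω ^ N * q1 + py Ω ^ N * q2 := by
  refine ⟨PowerSeries.mk fun j => if j < N then
      PowerSeries.mk fun i => PowerSeries.coeff (i + N) (PowerSeries.coeff j p) else 0,
    PowerSeries.mk fun j => PowerSeries.coeff (j + N) p, ?_⟩
  apply ext_cf
  intro i j
  rw [cf_add, cf_add, cf_px_pow_mul, cf_py_pow_mul, cf_sum]
  have h1 : ∀ a ∈ Finset.range N, cf i j (∑ b ∈ Finset.range N,
      cst (cf a b p) * px Ω ^ a * py Ω ^ b) =
      if a = i ∧ j < N then cf i j p else 0 := by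
    intro a _
    rw [cf_sum]
    have h2 : ∀ b ∈ Finset.range N, cf i j (cst (cf a b p) * px Ω ^ a * py Ω ^ b) =
        if b = j then (if a = i then cf i j p else 0) else 0 := by
      intro b _
      have : cst (cf a b p) * px Ω ^ a * py Ω ^ b =
          px Ω ^ a * (py Ω ^ b * cst (cf a b p)) := by ring
      rw [this, cf_px_pow_mul, cf_py_pow_mul, cf_cst]
      by_cases hb : b = j
      · subst hb
        by_cases ha : a = i
        · subst ha; simp
        · simp only [ha, if_false, if_true, le_refl, Nat.sub_self]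
          by_cases hai : a ≤ i
          · rw [if_pos hai, if_neg]
            rintro ⟨h, -⟩
            omega
          · rw [if_neg hai]
      · rw [if_neg hb]
        by_cases hai : a ≤ i
        · by_cases hbj : b ≤ j
          · rw [if_pos hai, if_pos hbj, if_neg]
            rintro ⟨-, h⟩
            omega
          · rw [if_pos hai, if_neg hbj]
        · rw [if_neg hai]
    rw [Finset.sum_congr rfl h2, Finset.sum_ite_eq' (Finset.range N) j]
    simp only [Finset.mem_range]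
    by_cases hj : j < N <;> by_cases ha : a = i <;> simp [hj, ha]
  rw [Finset.sum_congr rfl h1]
  by_cases hj : j < N
  · have hj' : ¬ N ≤ j := by omega
    simp only [hj, and_true, hj', if_false, add_zero]
    rw [Finset.sum_ite_eq' (Finset.range N) i]
    simp only [Finset.mem_range]
    by_cases hi : i < N
    · have hi' : ¬ N ≤ i := by omega
      simp [hi, hi']
    · have hi' : N ≤ i := by omega
      rw [if_neg hi, if_pos hi', zero_add]
      simp only [cf, PowerSeries.coeff_mk, hj, if_true]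
      rw [Nat.sub_add_cancel hi']
  · have hj' : N ≤ j := by omega
    simp only [hj, and_false, if_false, Finset.sum_const_zero, zero_add, if_pos hj']
    have h3 : cf i (j - N) (PowerSeries.mk fun j => PowerSeries.coeff (j + N) p) = cf i j p := by
      simp only [cf, PowerSeries.coeff_mk, Nat.sub_add_cancel hj']
    rw [h3]
    have h4 : ∀ i', cf i' j (PowerSeries.mk fun j => if j < N then
      PowerSeries.mk fun i => PowerSeries.coeff (i + N) (PowerSeries.coeff j p) else 0) = 0 := by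
      intro i'
      simp [cf, PowerSeries.coeff_mk, hj]
    rw [h4]
    simp

end P2

section AA
variable {Ω : Type u} [Field Ω]

instance : IsNoetherianRing (AA Ω) := by
  have : IsNoetherian (P2 Ω) (AA Ω) := inferInstance
  exact isNoetherian_of_tower (P2 Ω) this

theorem ax_pow (n : ℕ) : ax Ω ^ n = ⟨px Ω ^ n, 0⟩ := by
  have : ax Ω = algebraMap (P2 Ω) (AA Ω) (px Ω) := rfl
  rw [this, ← map_pow]; rfl

theorem ay_pow (n : ℕ) : ay Ω ^ n = ⟨py Ω ^ n, 0⟩ := by
  have : ay Ω = algebraMap (P2 Ω) (AA Ω) (py Ω) := rfl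
  rw [this, ← map_pow]; rfl

theorem az_sq : az Ω ^ 2 = ax Ω ^ 4 + ay Ω ^ 4 := by
  rw [ax_pow, ay_pow, sq]
  apply QuadraticAlgebra.ext
  · change (0 : P2 Ω) * 0 + g4 Ω * 1 * 1 = px Ω ^ 4 + py Ω ^ 4
    rw [g4]; ring
  · change (0 : P2 Ω) * 1 + 1 * 0 + 0 * 1 * 1 = 0 + 0
    ring

theorem AA_eq (a : AA Ω) :
    a = algebraMap (P2 Ω) (AA Ω) a.re + algebraMap (P2 Ω) (AA Ω) a.im * az Ω := by
  apply QuadraticAlgebra.ext
  · change a.re = a.re + (a.im * 0 + g4 Ω * 0 * 1)
    ring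
  · change a.im = 0 + (a.im * 1 + 0 * 0 + 0 * 0 * 1)
    ring

theorem algebraMap_AA' (c : Ω) : algebraMap Ω (AA Ω) c = algebraMap (P2 Ω) (AA Ω) (cst c) := by
  rw [algebraMap_AA]; rfl

theorem ax_eq : ax Ω = algebraMap (P2 Ω) (AA Ω) (px Ω) := rfl
theorem ay_eq : ay Ω = algebraMap (P2 Ω) (AA Ω) (py Ω) := rfl

theorem mapA_re {Ω' : Type u} [Field Ω'] (φ : Ω →+* Ω') (a : AA Ω) :
    (mapA φ a).re = mapP φ a.re := rfl
theorem mapA_im {Ω' : Type u} [Field Ω'] (φ : Ω →+* Ω') (a : AA Ω) :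
    (mapA φ a).im = mapP φ a.im := rfl
theorem mapA_ax {Ω' : Type u} [Field Ω'] (φ : Ω →+* Ω') : mapA φ (ax Ω) = ax Ω' := by
  apply QuadraticAlgebra.ext
  · exact mapP_px φ
  · exact map_zero _
theorem mapA_ay {Ω' : Type u} [Field Ω'] (φ : Ω →+* Ω') : mapA φ (ay Ω) = ay Ω' := by
  apply QuadraticAlgebra.ext
  · exact mapP_py φ
  · exact map_zero _
theorem mapA_az {Ω' : Type u} [Field Ω'] (φ : Ω →+* Ω') : mapA φ (az Ω) = az Ω' := by
  apply QuadraticAlgebra.ext
  · exact map_zero _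
  · exact map_one _

/-- units of `AA` -/
theorem isUnit_AA (a : AA Ω) : IsUnit a ↔ ev0 a.re ≠ 0 := by
  rw [QuadraticAlgebra.isUnit_iff_norm_isUnit, isUnit_P2, QuadraticAlgebra.norm_def]
  simp only [map_add, map_sub, map_mul, ev0_g4, map_zero]
  constructor
  · intro h h0; apply h; simp [h0]
  · intro h h0; apply h; simpa using h0

/-- powers of `x`, `y` in cofinite ideals can be increased -/
theorem Cof.pow_mem {I : Ideal (AA Ω)} (h : Cof I) :
    ∃ N, ∀ M, N ≤ M → ax Ω ^ M ∈ I ∧ ay Ω ^ M ∈ I := by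
  obtain ⟨N, h1, h2⟩ := h
  refine ⟨N, fun M hM => ?_⟩
  obtain ⟨e, rfl⟩ := Nat.exists_eq_add_of_le hM
  rw [pow_add, pow_add]
  exact ⟨I.mul_mem_right _ h1, I.mul_mem_right _ h2⟩

theorem Cof.mono {I J : Ideal (AA Ω)} (h : Cof I) (hIJ : I ≤ J) : Cof J := by
  obtain ⟨N, h1, h2⟩ := h
  exact ⟨N, hIJ h1, hIJ h2⟩

/-- truncation in `AA` modulo a cofinite ideal: every element is a polynomial in `x,y,z`. -/
theorem Cof.exists_trunc {I : Ideal (AA Ω)} (h : Cof I) : ∃ N : ℕ, ∀ a : AA Ω,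
    a - ∑ i ∈ Finset.range N, ∑ j ∈ Finset.range N,
      (algebraMap Ω (AA Ω) (cf i j a.re) * ax Ω ^ i * ay Ω ^ j +
        algebraMap Ω (AA Ω) (cf i j a.im) * ax Ω ^ i * ay Ω ^ j * az Ω) ∈ I := by
  obtain ⟨N, h1, h2⟩ := h
  refine ⟨N, fun a => ?_⟩
  obtain ⟨q1, q2, hq⟩ := trunc_P2 N a.re
  obtain ⟨r1, r2, hr⟩ := trunc_P2 N a.im
  have e : ∀ p q1 q2 : P2 Ω,
      p = (∑ i ∈ Finset.range N, ∑ j ∈ Finset.range N, cst (cf i j p) * px Ω ^ i * py Ω ^ j) +
      px Ω ^ N * q1 + py Ω ^ N * q2 →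
      algebraMap (P2 Ω) (AA Ω) p = (∑ i ∈ Finset.range N, ∑ j ∈ Finset.range N,
      algebraMap Ω (AA Ω) (cf i j p) * ax Ω ^ i * ay Ω ^ j) +
      ax Ω ^ N * algebraMap (P2 Ω) (AA Ω) q1 + ay Ω ^ N * algebraMap (P2 Ω) (AA Ω) q2 := by
    intro p q1 q2 hp
    have hp' := congrArg (algebraMap (P2 Ω) (AA Ω)) hp
    have h5 : algebraMap (P2 Ω) (AA Ω) (∑ i ∈ Finset.range N, ∑ j ∈ Finset.range N,
        cst (cf i j p) * px Ω ^ i * py Ω ^ j) = ∑ i ∈ Finset.range N, ∑ j ∈ Finset.range N,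
        algebraMap Ω (AA Ω) (cf i j p) * ax Ω ^ i * ay Ω ^ j := by
      rw [map_sum]
      refine Finset.sum_congr rfl fun i _ => ?_
      rw [map_sum]
      refine Finset.sum_congr rfl fun j _ => ?_
      rw [map_mul, map_mul, map_pow, map_pow, ← ax_eq, ← ay_eq, algebraMap_AA']
    rw [map_add, map_add, map_mul, map_mul, map_pow, map_pow, ← ax_eq, ← ay_eq, h5] at hp'
    exact hp'
  have e1 := e _ _ _ hq
  have e2 := e _ _ _ hr
  have key : a - ∑ i ∈ Finset.range N, ∑ j ∈ Finset.range N,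
      (algebraMap Ω (AA Ω) (cf i j a.re) * ax Ω ^ i * ay Ω ^ j +
        algebraMap Ω (AA Ω) (cf i j a.im) * ax Ω ^ i * ay Ω ^ j * az Ω) =
      ax Ω ^ N * (algebraMap (P2 Ω) (AA Ω) q1 + algebraMap (P2 Ω) (AA Ω) r1 * az Ω) +
      ay Ω ^ N * (algebraMap (P2 Ω) (AA Ω) q2 + algebraMap (P2 Ω) (AA Ω) r2 * az Ω) := by
    have e3 := AA_eq a
    rw [e1, e2] at e3
    simp only [Finset.sum_add_distrib, ← Finset.sum_mul]
    rw [sub_eq_iff_eq_add]
    refine e3.trans ?_
    ring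
  rw [key]
  exact I.add_mem (I.mul_mem_right _ h1) (I.mul_mem_right _ h2)

theorem Cof.finite {I : Ideal (AA Ω)} (h : Cof I) : Module.Finite Ω (AA Ω ⧸ I) := by
  classical
  obtain ⟨N, hN⟩ := h.exists_trunc
  refine ⟨⟨(Finset.range N ×ˢ Finset.range N).image (fun q : ℕ × ℕ =>
      Ideal.Quotient.mk I (ax Ω ^ q.1 * ay Ω ^ q.2)) ∪
    (Finset.range N ×ˢ Finset.range N).image (fun q : ℕ × ℕ =>
      Ideal.Quotient.mk I (ax Ω ^ q.1 * ay Ω ^ q.2 * az Ω)), ?_⟩⟩
  rw [eq_top_iff]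
  rintro b -
  obtain ⟨a, rfl⟩ := Ideal.Quotient.mk_surjective b
  rw [← sub_add_cancel a (∑ i ∈ Finset.range N, ∑ j ∈ Finset.range N,
      (algebraMap Ω (AA Ω) (cf i j a.re) * ax Ω ^ i * ay Ω ^ j +
        algebraMap Ω (AA Ω) (cf i j a.im) * ax Ω ^ i * ay Ω ^ j * az Ω)), map_add,
    (Ideal.Quotient.eq_zero_iff_mem).2 (hN a), zero_add]
  rw [map_sum]
  refine Submodule.sum_mem _ fun i hi => ?_
  rw [map_sum]
  refine Submodule.sum_mem _ fun j hj => ?_
  rw [map_add]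
  refine Submodule.add_mem _ ?_ ?_
  · have : Ideal.Quotient.mk I (algebraMap Ω (AA Ω) (cf i j a.re) * ax Ω ^ i * ay Ω ^ j) =
        cf i j a.re • Ideal.Quotient.mk I (ax Ω ^ i * ay Ω ^ j) := by
      rw [mul_assoc, map_mul, Algebra.smul_def]; rfl
    rw [this]
    apply Submodule.smul_mem
    apply Submodule.subset_span
    rw [Finset.coe_union]
    left
    rw [Finset.coe_image]
    exact ⟨(i, j), by simpa using And.intro (Finset.mem_range.1 hi) (Finset.mem_range.1 hj), rfl⟩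
  · have : Ideal.Quotient.mk I (algebraMap Ω (AA Ω) (cf i j a.im) * ax Ω ^ i * ay Ω ^ j * az Ω) =
        cf i j a.im • Ideal.Quotient.mk I (ax Ω ^ i * ay Ω ^ j * az Ω) := by
      rw [mul_assoc, mul_assoc, map_mul, Algebra.smul_def, ← mul_assoc (ax Ω ^ i)]; rfl
    rw [this]
    apply Submodule.smul_mem
    apply Submodule.subset_span
    rw [Finset.coe_union]
    right
    rw [Finset.coe_image]
    exact ⟨(i, j), by simpa using And.intro (Finset.mem_range.1 hi) (Finset.mem_range.1 hj), rfl⟩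

theorem Cof.adjoin {I : Ideal (AA Ω)} (h : Cof I) :
    Algebra.adjoin Ω (Set.range (qp I)) = ⊤ := by
  obtain ⟨N, hN⟩ := h.exists_trunc
  rw [eq_top_iff]
  rintro b -
  obtain ⟨a, rfl⟩ := Ideal.Quotient.mk_surjective b
  rw [← sub_add_cancel a (∑ i ∈ Finset.range N, ∑ j ∈ Finset.range N,
      (algebraMap Ω (AA Ω) (cf i j a.re) * ax Ω ^ i * ay Ω ^ j +
        algebraMap Ω (AA Ω) (cf i j a.im) * ax Ω ^ i * ay Ω ^ j * az Ω)), map_add,
    (Ideal.Quotient.eq_zero_iff_mem).2 (hN a), zero_add]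
  have hx : Ideal.Quotient.mk I (ax Ω) ∈ Algebra.adjoin Ω (Set.range (qp I)) :=
    Algebra.subset_adjoin ⟨0, rfl⟩
  have hy : Ideal.Quotient.mk I (ay Ω) ∈ Algebra.adjoin Ω (Set.range (qp I)) :=
    Algebra.subset_adjoin ⟨1, rfl⟩
  have hz : Ideal.Quotient.mk I (az Ω) ∈ Algebra.adjoin Ω (Set.range (qp I)) :=
    Algebra.subset_adjoin ⟨2, rfl⟩
  have hc : ∀ c : Ω, Ideal.Quotient.mk I (algebraMap Ω (AA Ω) c) ∈
      Algebra.adjoin Ω (Set.range (qp I)) := fun c =>
    (Algebra.adjoin Ω (Set.range (qp I))).algebraMap_mem c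
  rw [map_sum]
  refine Subalgebra.sum_mem _ fun i hi => ?_
  rw [map_sum]
  refine Subalgebra.sum_mem _ fun j hj => ?_
  simp only [map_add, map_mul, map_pow]
  exact Subalgebra.add_mem _ (Subalgebra.mul_mem _ (Subalgebra.mul_mem _ (hc _)
    (Subalgebra.pow_mem _ hx _)) (Subalgebra.pow_mem _ hy _))
    (Subalgebra.mul_mem _ (Subalgebra.mul_mem _ (Subalgebra.mul_mem _ (hc _)
      (Subalgebra.pow_mem _ hx _)) (Subalgebra.pow_mem _ hy _)) hz)

theorem qp_sq (I : Ideal (AA Ω)) : qp I 2 ^ 2 = qp I 0 ^ 4 + qp I 1 ^ 4 := by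
  change Ideal.Quotient.mk I (az Ω) ^ 2 =
    Ideal.Quotient.mk I (ax Ω) ^ 4 + Ideal.Quotient.mk I (ay Ω) ^ 4
  rw [← map_pow, az_sq, map_add, map_pow, map_pow]

theorem Cof.nilpotent {I : Ideal (AA Ω)} (h : Cof I) (i : Fin 3) : IsNilpotent (qp I i) := by
  obtain ⟨N, h1, h2⟩ := h
  have hx : IsNilpotent (qp I 0) := ⟨N, by
    change Ideal.Quotient.mk I (ax Ω) ^ N = 0
    rw [← map_pow]; exact (Ideal.Quotient.eq_zero_iff_mem).2 h1⟩
  have hy : IsNilpotent (qp I 1) := ⟨N, by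
    change Ideal.Quotient.mk I (ay Ω) ^ N = 0
    rw [← map_pow]; exact (Ideal.Quotient.eq_zero_iff_mem).2 h2⟩
  have hz : IsNilpotent (qp I 2) := by
    have h4 : IsNilpotent (qp I 2 ^ 2) := by
      rw [qp_sq]
      exact (Commute.all _ _).isNilpotent_add (hx.pow_of_pos (by norm_num))
        (hy.pow_of_pos (by norm_num))
    obtain ⟨M, hM⟩ := h4
    exact ⟨2 * M, by rw [pow_mul, hM]⟩
  fin_cases i
  · exact hx
  · exact hy
  · exact hz

end AA

/-! ### pencils -/

section Pencil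
variable {P : Type u} [CommRing P] {g : P} {n N : Type} [Fintype n] [Fintype N]

theorem act_add (T : Matrix n n P) (lam : N → n → P) (r r' : N → QuadraticAlgebra P g 0) :
    act T lam (fun i => r i + r' i) = act T lam r + act T lam r' := by
  simp only [act, ← Finset.sum_add_distrib]
  refine Finset.sum_congr rfl fun i _ => ?_
  simp only [QuadraticAlgebra.re_add, QuadraticAlgebra.im_add, add_smul]
  abel

theorem act_sub (T : Matrix n n P) (lam : N → n → P) (r r' : N → QuadraticAlgebra P g 0) :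
    act T lam (fun i => r i - r' i) = act T lam r - act T lam r' := by
  simp only [act, ← Finset.sum_sub_distrib]
  refine Finset.sum_congr rfl fun i _ => ?_
  simp only [QuadraticAlgebra.re_sub, QuadraticAlgebra.im_sub, sub_smul]
  abel

/-- `act` is linear over the quadratic algebra: `(c r) * lam = c.re (r * lam) + c.im (r * lam) T` -/
theorem act_mul [DecidableEq n] (T : Matrix n n P) (hT : T * T = g • (1 : Matrix n n P))
    (lam : N → n → P) (c : QuadraticAlgebra P g 0) (r : N → QuadraticAlgebra P g 0) :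
    act T lam (fun i => c * r i) = c.re • act T lam r + c.im • (act T lam r ᵥ* T) := by
  have hTT : ∀ v : n → P, (v ᵥ* T) ᵥ* T = g • v := by
    intro v
    rw [Matrix.vecMul_vecMul, hT, Matrix.vecMul_smul, Matrix.vecMul_one]
  simp only [act, Finset.smul_sum, Matrix.sum_vecMul, ← Finset.sum_add_distrib]
  refine Finset.sum_congr rfl fun i _ => ?_
  simp only [QuadraticAlgebra.re_mul, QuadraticAlgebra.im_mul, Matrix.add_vecMul,
    Matrix.smul_vecMul, hTT, zero_mul, add_zero, smul_add, smul_smul, add_smul]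
  have : c.im * ((r i).im * g) = g * c.im * (r i).im := by ring
  rw [this]
  abel

/-- pairing of a relation with the embedded vector `w` -/
theorem sum_mul_hat [DecidableEq n] (T : Matrix n n P) (hT : T * T = g • (1 : Matrix n n P))
    (lam : N → n → P) (r : N → QuadraticAlgebra P g 0) (w : n → P) :
    ∑ i, r i * hat g T (lam i) w =
      ⟨act T lam r ⬝ᵥ (T *ᵥ w), act T lam r ⬝ᵥ w⟩ := by
  have hTT : T *ᵥ (T *ᵥ w) = g • w := by
    rw [Matrix.mulVec_mulVec, hT, Matrix.smul_mulVec, Matrix.one_mulVec]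
  have hre : (∑ i, r i * hat g T (lam i) w).re = ∑ i, (r i * hat g T (lam i) w).re :=
    map_sum (QuadraticAlgebra.reₗ (R := P) g 0) _ _
  have him : (∑ i, r i * hat g T (lam i) w).im = ∑ i, (r i * hat g T (lam i) w).im :=
    map_sum (QuadraticAlgebra.imₗ (R := P) g 0) _ _
  apply QuadraticAlgebra.ext
  · rw [hre]
    simp only [act, sum_dotProduct]
    refine Finset.sum_congr rfl fun i _ => ?_
    simp only [QuadraticAlgebra.re_mul, hat, add_dotProduct, smul_dotProduct, smul_eq_mul,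
      ← Matrix.dotProduct_mulVec, hTT, dotProduct_smul]
    ring
  · rw [him]
    simp only [act, sum_dotProduct]
    refine Finset.sum_congr rfl fun i _ => ?_
    simp only [QuadraticAlgebra.im_mul, hat, add_dotProduct, smul_dotProduct, smul_eq_mul,
      ← Matrix.dotProduct_mulVec]
    ring

end Pencil

/-! ### configurations -/

section Cfg
variable {k Ω : Type u} [Field k] [Field Ω]

theorem Cfg.map_fn {d : ℕ} {R R' : Type u} (φ : R → R') (c : Cfg d R) :
    (c.map φ).fn = φ ∘ c.fn := by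
  funext i
  rcases i with ⟨a, i, j⟩ | i <;> rfl

/-- **specialisation** -/
theorem SmCfg.spec {Ω' : Type u} [Field Ω'] (κ : k →+* Ω) (ι : PowerSeries Ω →+* Ω')
    (hι : Function.Injective ι) {d : ℕ} (c : Cfg d (PowerSeries Ω))
    (h : SmCfg ((ι.comp PowerSeries.C).comp κ) (c.map ι)) :
    SmCfg κ (c.map (PowerSeries.constantCoeff (R := Ω))) := by
  intro F hF
  have h1 := h F hF
  rw [Cfg.map_fn] at h1 ⊢
  have h2 : ι (MvPolynomial.eval₂ ((PowerSeries.C (R := Ω)).comp κ) c.fn F) = 0 := by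
    rw [MvPolynomial.hom_eval₂]
    exact h1
  have h3 : MvPolynomial.eval₂ ((PowerSeries.C (R := Ω)).comp κ) c.fn F = 0 :=
    hι (by rw [h2, map_zero])
  have h4 := congrArg (PowerSeries.constantCoeff (R := Ω)) h3
  rw [MvPolynomial.hom_eval₂, map_zero] at h4
  have h5 : (PowerSeries.constantCoeff (R := Ω)).comp ((PowerSeries.C (R := Ω)).comp κ) = κ := by
    ext a
    simp
  rw [h5] at h4
  exact h4

/-- transport of `SmAt` along an isomorphism -/
theorem SmAt.iso {κ : k →+* Ω} {W W' : Type u} [CommRing W] [CommRing W'] [Algebra Ω W]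
    [Algebra Ω W'] (e : W ≃ₐ[Ω] W') {p : Fin 3 → W} (h : SmAt κ W p) :
    SmAt κ W' (fun i => e (p i)) := by
  intro d b
  have h1 := h d (b.map e.symm.toLinearEquiv)
  have h2 : cfgOf (b.map e.symm.toLinearEquiv) p = cfgOf b (fun i => e (p i)) := by
    have hr : ∀ w : W, (b.map e.symm.toLinearEquiv).repr w = b.repr (e w) := by
      intro w
      rfl
    apply Cfg.ext
    · funext i
      change Algebra.leftMulMatrix _ _ = Algebra.leftMulMatrix _ _
      ext a c
      rw [Algebra.leftMulMatrix_eq_repr_mul, Algebra.leftMulMatrix_eq_repr_mul, hr, map_mul]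
      simp
    · change ⇑((b.map e.symm.toLinearEquiv).repr 1) = ⇑(b.repr 1)
      rw [hr, map_one]
  rw [h2] at h1
  exact h1

theorem SmAt.of_iso {κ : k →+* Ω} {W W' : Type u} [CommRing W] [CommRing W'] [Algebra Ω W]
    [Algebra Ω W'] (e : W ≃ₐ[Ω] W') {p : Fin 3 → W} {p' : Fin 3 → W'}
    (hp : ∀ i, e (p i) = p' i) (h : SmAt κ W p) : SmAt κ W' p' := by
  have : p' = fun i => e (p i) := funext fun i => (hp i).symm
  rw [this]
  exact h.iso e

theorem SmI.congr {κ : k →+* Ω} {I J : Ideal (AA Ω)} (h : I = J) (hI : SmI κ I) : SmI κ J :=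
  h ▸ hI

/-- size zero configurations are smoothable -/
theorem SmCfg.of_zero (κ : k →+* Ω) (c : Cfg 0 Ω) : SmCfg κ c := by
  intro F hF
  let c0 : Cfg 0 k := ⟨fun _ => 1, fun i => i.elim0⟩
  have hc0 : IsRed c0 := by
    refine ⟨fun i => i.elim0, 1, 1, fun i => i.elim0, fun i => i.elim0, by simp, fun a => ?_, ?_⟩
    · ext i; exact i.elim0
    · funext i; exact i.elim0
  have h1 := hF c0 hc0
  have hempty : IsEmpty (Idx 0) := by
    constructor
    rintro (⟨a, i, j⟩ | i)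
    · exact i.elim0
    · exact i.elim0
  have h2 : c.fn = κ ∘ c0.fn := by
    funext i
    exact hempty.elim i
  rw [h2]
  have h3 : MvPolynomial.eval₂ κ (κ ∘ c0.fn) F = κ (MvPolynomial.eval c0.fn F) := by
    rw [MvPolynomial.eval, MvPolynomial.coe_eval₂Hom, MvPolynomial.hom_eval₂, RingHom.comp_id]
    rfl
  rw [h3, h1, map_zero]

theorem SmAt.of_subsingleton (κ : k →+* Ω) (W : Type u) [CommRing W] [Algebra Ω W]
    [Subsingleton W] (p : Fin 3 → W) : SmAt κ W p := by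
  intro d b
  have hd : d = 0 := by
    by_contra hd
    have : 0 < d := Nat.pos_of_ne_zero hd
    have h1 : b ⟨0, this⟩ = 0 := Subsingleton.elim _ _
    exact b.ne_zero _ h1
  subst hd
  exact SmCfg.of_zero κ _

theorem charZero_of_hom [CharZero k] (κ : k →+* Ω) : CharZero Ω :=
  charZero_of_injective_ringHom κ.injective

end Cfg

end Pool.Agent.H12.HS
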