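import Pool.Agent.H12.HS.Assemble
import Pool.Agent.H12.HZ.ALL
import Pool.Agent.H65.HZ.DIM
import Pool.Agent.H65.HZ.NORM
import Pool.Agent.H79.HS.BR
import Pool.Agent.H79.HS.NB
import Pool.Agent.H79.HS.NBU
import Pool.Agent.H29.HZ.FREE
import Pool.Agent.H29.HZ.HENS
import Pool.Agent.H29.HZ.XX
import Pool.Agent.H11.HZ.AWAY
import Pool.Agent.H11.HZ.CONJ
import Pool.Agent.H11.HZ.CB
import Pool.Agent.H11.HZ.IDEM
import Pool.Agent.H56.HZ.NOND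
import Pool.Agent.H56.HZ.DIST
import Pool.Agent.H56.HZ.GEN
import Pool.Agent.H67.HZ.BRU
import Pool.Agent.H67.HZ.DOM
import Pool.Agent.H67.HZ.TR0
import Pool.Agent.H67.HZ.AUT
import Pool.Agent.H76.HZ.TAU
import Pool.Agent.H76.HZ.EVN
import Pool.Agent.H70.HZ.STEP
import Pool.Agent.H70.HZ.HBSYZ
import Pool.Agent.H70.HZ.SYZ
import Pool.Agent.H70.HZ.KER
import Pool.Agent.H70.HZ.RS
import Pool.Agent.H33.HZ.SAT
import Pool.Agent.H33.HZ.LA
import Pool.Agent.H33.HZ.LIFT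
import Pool.Agent.H33.HZ.HID
import Pool.Agent.H48.HZ.ROOT
import Pool.Agent.H48.HZ.CONV
import Pool.Agent.H48.HZ.EXT
import Pool.Agent.H48.HZ.RED
import Pool.Agent.H24.HZ.FLAT
import Pool.Agent.H24.HZ.EXIST
import Pool.Agent.H24.HZ.FREEK
import Pool.Agent.H29.HZ.SUM
import Pool.Agent.H29.HZ.R1
import Pool.Agent.H29.HZ.STRIP
import Pool.Agent.H56.HZ.MT
import Pool.Agent.H76.HZ.FAM
import Pool.Agent.H76.HZ.FINM
import Pool.Agent.H11.HZ.BB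
import Pool.Agent.H11.HZ.HB
import Pool.Agent.H11.HZ.HBFAM
import Pool.Agent.H65.HZ.NDV
import Pool.Agent.H65.HZ.SING
import Pool.Agent.H65.HZ.IRR
import Pool.Agent.H65.HZ.FUN

/-!
# All modules together
-/

namespace Pool.Agent.H12.HS

universe u

theorem rs' : T_RS.{u} := Pool.Agent.H70.HZ.RS.rs
theorem aut' : T_AUT.{u} := Pool.Agent.H67.HZ.AUT.aut
theorem dom' : T_DOM.{u} := Pool.Agent.H67.HZ.DOM.dom aut'
theorem tr0' : T_TR0.{u} := Pool.Agent.H67.HZ.TR0.tr0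
theorem ker' : T_KER.{u} := Pool.Agent.H70.HZ.KER.ker rs' dom'
theorem syz' : T_SYZ.{u} := Pool.Agent.H70.HZ.SYZ.syz rs' dom'
theorem hbsyz' : T_HBSYZ.{u} := Pool.Agent.H70.HZ.HBSYZ.hbsyz rs' dom'
theorem hbred' : T_HBRED.{u} := Pool.Agent.H70.HZ.HBSYZ.hbred
theorem evn' : T_EVN.{u} := Pool.Agent.H76.HZ.EVN.evn
theorem tau' : T_TAU.{u} := Pool.Agent.H76.HZ.TAU.tau_thm evn'
theorem red' : T_RED.{u} := Pool.Agent.H48.HZ.RED.red
theorem ext' : T_EXT.{u} := Pool.Agent.H48.HZ.EXT.ext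
theorem conj' : T_CONJ.{u} := Pool.Agent.H11.HZ.CONJ.conj red' ext'
theorem idem' : T_IDEM.{u} := Pool.Agent.H11.HZ.IDEM.idem
theorem cb' : T_CB.{u} := Pool.Agent.H11.HZ.CB.cb
theorem flat' : T_FLAT.{u} := Pool.Agent.H24.HZ.FLAT.flat
theorem freek' : T_FREEK.{u} := Pool.Agent.H24.HZ.FREEK.freek
theorem exist' : T_EXIST.{u} := Pool.Agent.H24.HZ.EXIST.exist freek'
theorem nbu' : T_NBU.{u} := Pool.Agent.H79.HS.nbu
theorem bru' : T_BRU.{u} := Pool.Agent.H67.HZ.BRU.bru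
theorem sat' : T_SAT.{u} := Pool.Agent.H33.HZ.SAT.sat
theorem la' : T_LA.{u} := Pool.Agent.H33.HZ.LA.la
theorem hid' : T_HID.{u} := Pool.Agent.H33.HZ.HID.hid
theorem lift' : T_LIFT.{u} := Pool.Agent.H33.HZ.LIFT.lift
theorem nb' : T_NB.{u} := Pool.Agent.H79.HS.nb nbu' tr0'
theorem br' : T_BR.{u} := Pool.Agent.H79.HS.br bru' sat'
theorem nond' : T_NOND.{u} := Pool.Agent.H56.HZ.NOND.nond
theorem gen' : T_GEN.{u} := Pool.Agent.H56.HZ.GEN.gen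
theorem dist' : T_DIST.{u} := Pool.Agent.H56.HZ.DIST.dist
theorem hens' : T_HENS.{u} := Pool.Agent.H29.HZ.HENS.hens
theorem conv' : T_CONV.{u} := Pool.Agent.H48.HZ.CONV.conv
theorem root' : T_ROOT.{u} := Pool.Agent.H48.HZ.ROOT.root
theorem norm' : T_NORM.{u} := Pool.Agent.H65.HZ.NORM.norm
theorem dim' : T_DIM.{u} := Pool.Agent.H65.HZ.DIM.dim
theorem sing' : T_SING.{u} := Pool.Agent.H65.HZ.SING.sing dim'
theorem ndv' : T_NDV.{u} := Pool.Agent.H65.HZ.NDV.ndv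
theorem sum' : T_SUM.{u} := Pool.Agent.H29.HZ.SUM.sum ext' conj'
theorem r1' : T_R1.{u} := Pool.Agent.H29.HZ.R1.r1 ker' syz' rs' dom'
theorem free' : T_FREE.{u} := Pool.Agent.H29.HZ.FREE.free ker' syz' rs' dom'
theorem strip' : T_STRIP.{u} := Pool.Agent.H29.HZ.STRIP.strip
theorem mt' : T_MT.{u} := Pool.Agent.H56.HZ.MT.mt red' nond' gen' dist' conv' hens' root'
theorem away' : T_AWAY.{u} := Pool.Agent.H11.HZ.AWAY.away mt' sum'
theorem finm' : T_FINM.{u} := Pool.Agent.H76.HZ.FINM.finm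
theorem fam' : T_FAM.{u} := Pool.Agent.H76.HZ.FAM.fam flat' finm' tau' evn' idem' away' sum'
theorem hbfam' : T_HBFAM.{u} := Pool.Agent.H11.HZ.HBFAM.hbfam hbsyz' fam'
theorem hb' : T_HB.{u} := Pool.Agent.H11.HZ.HB.hb hbfam' hbred'
theorem bb' : T_BB.{u} := Pool.Agent.H11.HZ.BB.bb nbu' tr0' dom'
theorem xx' : T_XX.{u} := Pool.Agent.H29.HZ.XX.xx nb' br' la' aut' dom'
theorem step' : T_STEP.{u} := Pool.Agent.H70.HZ.STEP.step rs' ker' syz' lift' hid' finm' fam'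
theorem main' : T_MAIN.{u} := main exist' cb' strip' free' r1' hb' xx' bb' step'
theorem all' : T_ALL.{u} := Pool.Agent.H12.HZ.ALL.all main' away' idem' sum' evn'
theorem irr' : T_IRR.{u} := Pool.Agent.H65.HZ.IRR.irr
theorem fun' : T_FUN.{u} := Pool.Agent.H65.HZ.FUN.fun_
theorem final : T_FINAL.{u} := assemble norm' dim' sing' ndv' all' irr' fun'

end Pool.Agent.H12.HS
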