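import Pool.Agent.H12.HS.Main

/-!
# Assembly from the targets
-/

namespace Pool.Agent.H12.HS

universe u

theorem assemble (hNORM : T_NORM.{u}) (hDIM : T_DIM.{u}) (hSING : T_SING.{u}) (hNDV : T_NDV.{u})
    (hALL : T_ALL.{u}) (hIRR : T_IRR.{u}) (hFUN : T_FUN.{u}) : T_FINAL.{u} := by
  intro k _ _ _
  obtain ⟨h1, h2⟩ := hNORM k
  obtain ⟨h3, h4⟩ := hSING k
  refine ⟨h1, h2, inferInstance, hDIM k, ⟨h3, h4, hNDV k h3⟩, ?_, ?_⟩
  · exact hIRR hNORM hALL k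
  · exact hFUN hNORM hALL k

end Pool.Agent.H12.HS
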