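import Mathlib

/-!
# Hilbert schemes of points of the surface z^2 = x^4 + y^4: definitions

Local ring model: `P2 Ω = Ω[[x]][[y]]`, `AA Ω = P2 Ω ⊕ P2 Ω z` with `z^2 = x^4 + y^4`.
-/

namespace Pool.Agent.H12.HS

open Matrix

universe u

/-! ### The local ring -/

/-- `P2 Ω = Ω[[x]][[y]]`: the outer variable is `y`, the inner variable is `x`. -/
abbrev P2 (Ω : Type u) [Field Ω] : Type u := PowerSeries (PowerSeries Ω)

section LocalRing
variable (Ω : Type u) [Field Ω]

/-- the variable `x` -/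
noncomputable def px : P2 Ω := PowerSeries.C (PowerSeries.X : PowerSeries Ω)
/-- the variable `y` -/
noncomputable def py : P2 Ω := PowerSeries.X
/-- the quartic `x^4 + y^4` -/
noncomputable def g4 : P2 Ω := px Ω ^ 4 + py Ω ^ 4

/-- the completed local ring of the surface `z^2 = x^4 + y^4` at the origin:
elements are `re + im * z`. -/
abbrev AA : Type u := QuadraticAlgebra (P2 Ω) (g4 Ω) 0

/-- `x`, `y`, `z` in `AA` -/
noncomputable def ax : AA Ω := ⟨px Ω, 0⟩
noncomputable def ay : AA Ω := ⟨py Ω, 0⟩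
noncomputable def az : AA Ω := ⟨0, 1⟩

variable {Ω}

/-- coefficient of `x^i y^j` -/
noncomputable def cf (i j : ℕ) (p : P2 Ω) : Ω := PowerSeries.coeff i (PowerSeries.coeff j p)

/-- value at the origin -/
noncomputable def ev0 : P2 Ω →+* Ω :=
  (PowerSeries.constantCoeff (R := Ω)).comp (PowerSeries.constantCoeff (R := PowerSeries Ω))

/-- coefficients of `x` and of `y` -/
noncomputable def lx (p : P2 Ω) : Ω := cf 1 0 p
noncomputable def ly (p : P2 Ω) : Ω := cf 0 1 p

/-- the constants of `P2` -/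
noncomputable def cst (c : Ω) : P2 Ω := PowerSeries.C (PowerSeries.C c)

/-- general quartic form `a0 x^4 + a1 x^3 y + a2 x^2 y^2 + a3 x y^3 + a4 y^4` -/
noncomputable def quart (a : Fin 5 → Ω) : P2 Ω :=
  ∑ i : Fin 5, cst (a i) * px Ω ^ (4 - (i : ℕ)) * py Ω ^ (i : ℕ)

/-- change of the coefficient field on `P2` -/
noncomputable def mapP {Ω' : Type u} [Field Ω'] (j : Ω →+* Ω') : P2 Ω →+* P2 Ω' :=
  PowerSeries.map (PowerSeries.map j)

theorem mapP_px {Ω' : Type u} [Field Ω'] (j : Ω →+* Ω') : mapP j (px Ω) = px Ω' := by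
  simp [mapP, px]

theorem mapP_py {Ω' : Type u} [Field Ω'] (j : Ω →+* Ω') : mapP j (py Ω) = py Ω' := by
  simp [mapP, py]

theorem mapP_g4 {Ω' : Type u} [Field Ω'] (j : Ω →+* Ω') : mapP j (g4 Ω) = g4 Ω' := by
  simp [g4, mapP_px, mapP_py]

/-- change of the coefficient field on `AA` -/
noncomputable def mapA {Ω' : Type u} [Field Ω'] (j : Ω →+* Ω') : AA Ω →+* AA Ω' where
  toFun a := ⟨mapP j a.re, mapP j a.im⟩
  map_one' := by
    apply QuadraticAlgebra.ext <;> simp [QuadraticAlgebra.re_one, QuadraticAlgebra.im_one]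
  map_mul' a b := by
    ext <;> simp [QuadraticAlgebra.re_mul, QuadraticAlgebra.im_mul, mapP_g4]
  map_zero' := by ext <;> simp
  map_add' a b := by ext <;> simp

/-- an ideal of `AA` (or `P2`) is cofinite: it contains powers of `x` and of `y` -/
def Cof (I : Ideal (AA Ω)) : Prop := ∃ N : ℕ, ax Ω ^ N ∈ I ∧ ay Ω ^ N ∈ I

end LocalRing

/-! ### Quadratic pencils of matrices, presentations -/

section Pencil
variable {P : Type u} [CommRing P] {g : P}

/-- the row vector `∑ r_i . lam_i`, where `QuadraticAlgebra P g 0 = P ⊕ P z` acts on row vectors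
through `z . v = v T`. -/
def act {n N : Type} [Fintype n] [Fintype N] (T : Matrix n n P) (lam : N → n → P)
    (r : N → QuadraticAlgebra P g 0) : n → P :=
  ∑ i, ((r i).re • lam i + (r i).im • (lam i ᵥ* T))

/-- `hat T lam w = lam T w + (lam w) z`. -/
def hat {n : Type} [Fintype n] (g : P) (T : Matrix n n P) (lam w : n → P) :
    QuadraticAlgebra P g 0 := ⟨lam ⬝ᵥ (T *ᵥ w), lam ⬝ᵥ w⟩

/-- first order part of `act` in the direction of a matrix `D` -/
def act1 {n N : Type} [Fintype n] [Fintype N] (D : Matrix n n P) (lam : N → n → P)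
    (r : N → QuadraticAlgebra P g 0) : n → P :=
  ∑ i, (r i).im • (lam i ᵥ* D)

/-- **Hecke datum** for a matrix `T` with `T^2 = g` along the line `l = 0`. -/
structure HD {n : Type} [Fintype n] (g : P) (T : Matrix n n P) where
  (l s a h ψ : P)
  (u u' φ φ' : n → P)
  hg : g = a ^ 2 + l * h
  hφu : φ ⬝ᵥ u = 0
  hu : T *ᵥ u = a • u + l • u'
  hφ : φ ᵥ* T = a • φ + l • φ'
  hψ : φ ⬝ᵥ u' = l * ψ
  hl : l ≠ 0
  hs : ∀ p, l ∣ s * p → l ∣ p
  ha : (∀ p, l ∣ a * p → l ∣ p) ∨ (a = 0 ∧ ∀ p, l ∣ h * p → l ∣ p)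

/-- the coefficient of `t` in `T_t = T + t (u' φ - u φ') - t^2 ψ u φ` -/
def HD.D1 {n : Type} [Fintype n] {T : Matrix n n P} (D : HD g T) : Matrix n n P :=
  vecMulVec D.u' D.φ - vecMulVec D.u D.φ'

/-- the coefficient of `t^2` in `T_t` -/
def HD.D2 {n : Type} [Fintype n] {T : Matrix n n P} (D : HD g T) : Matrix n n P :=
  -(D.ψ • vecMulVec D.u D.φ)

end Pencil

/-- **Presentation** of the cofinite ideal `(f_0, ..., f_m)` of `AA Ω`: the module of syzygies is
`(P2 Ω)^n` with `z` acting by the matrix `T`, embedded by `w ↦ (hat T (lam i) w)_i`. -/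
structure Pres {Ω : Type u} [Field Ω] {m : ℕ} {n : Type} [Fintype n] [DecidableEq n]
    (T : Matrix n n (P2 Ω)) (lam : Fin (m + 1) → n → P2 Ω) (f : Fin (m + 1) → AA Ω) : Prop where
  sq : T * T = g4 Ω • (1 : Matrix n n (P2 Ω))
  card : Fintype.card n = 2 * m
  rel : act T lam f = 0
  cofI : Cof (Ideal.span (Set.range f))
  cofM : ∃ N : ℕ, ∀ ρ : n → P2 Ω,
    (∃ r : Fin (m + 1) → AA Ω, act T lam r = px Ω ^ N • ρ) ∧
    (∃ r : Fin (m + 1) → AA Ω, act T lam r = py Ω ^ N • ρ)

/-- the block `[[0, g], [1, 0]]` -/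
def JJ {P : Type u} [CommRing P] (g : P) : Matrix (Fin 2) (Fin 2) P := !![0, g; 1, 0]

/-- block diagonal matrix with `ρ` blocks `JJ` and one block `T0` -/
noncomputable def blk {Ω : Type u} [Field Ω] (ρ : ℕ) {n : Type} (T0 : Matrix n n (P2 Ω)) :
    Matrix ((Fin 2 × Fin ρ) ⊕ n) ((Fin 2 × Fin ρ) ⊕ n) (P2 Ω) :=
  Matrix.fromBlocks (Matrix.blockDiagonal fun _ : Fin ρ => JJ (g4 Ω)) 0 0 T0

/-! ### Bordered matrices and maximal minors -/

section Minors
variable {A : Type u} [CommRing A]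

/-- the square matrix `[c | M]` -/
def bord {m : ℕ} (M : Matrix (Fin (m + 1)) (Fin m) A) (c : Fin (m + 1) → A) :
    Matrix (Fin (m + 1)) (Fin (m + 1)) A :=
  Matrix.of fun i => Fin.cons (c i) (M i)

/-- signed maximal minors -/
noncomputable def dl {m : ℕ} (M : Matrix (Fin (m + 1)) (Fin m) A) (i : Fin (m + 1)) : A :=
  (bord M (Pi.single i 1)).det

end Minors

/-! ### Configurations -/

/-- index set of the coordinates of a configuration -/
abbrev Idx (d : ℕ) : Type := (Fin 3 × Fin d × Fin d) ⊕ Fin d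

/-- three square matrices and a vector -/
@[ext] structure Cfg (d : ℕ) (R : Type u) where
  M : Fin 3 → Matrix (Fin d) (Fin d) R
  v : Fin d → R

/-- coordinates of a configuration -/
def Cfg.fn {d : ℕ} {R : Type u} (c : Cfg d R) : Idx d → R :=
  Sum.elim (fun q => c.M q.1 q.2.1 q.2.2) c.v

/-- base change of a configuration -/
def Cfg.map {d : ℕ} {R R' : Type u} (φ : R → R') (c : Cfg d R) : Cfg d R' :=
  ⟨fun i => (c.M i).map φ, φ ∘ c.v⟩

/-- `c` is the configuration of `d` distinct points of the surface `z^2 = x^4 + y^4` (in some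
basis). -/
def IsRed {d : ℕ} {K : Type u} [Field K] (c : Cfg d K) : Prop :=
  ∃ (p : Fin d → Fin 3 → K) (U V : Matrix (Fin d) (Fin d) K),
    Function.Injective p ∧ (∀ i, p i 2 ^ 2 = p i 0 ^ 4 + p i 1 ^ 4) ∧ U * V = 1 ∧
    (∀ a, c.M a = U * Matrix.diagonal (fun i => p i a) * V) ∧ c.v = U *ᵥ 1

/-- `c` lies in the closure of the configurations of distinct `k`-points. -/
def SmCfg {k Ω : Type u} [Field k] [Field Ω] (κ : k →+* Ω) {d : ℕ} (c : Cfg d Ω) : Prop :=
  ∀ F : MvPolynomial (Idx d) k,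
    (∀ c0 : Cfg d k, IsRed c0 → MvPolynomial.eval c0.fn F = 0) →
    MvPolynomial.eval₂ κ c.fn F = 0

/-- the configuration of a finite free algebra with basis `b` and three elements -/
noncomputable def cfgOf {R W : Type u} [CommRing R] [CommRing W] [Algebra R W] {d : ℕ}
    (b : Module.Basis (Fin d) R W) (p : Fin 3 → W) : Cfg d R :=
  ⟨fun i => Algebra.leftMulMatrix b (p i), b.repr 1⟩

/-- smoothability of the algebra `W` with the point `p` of the surface -/
def SmAt {k Ω : Type u} [Field k] [Field Ω] (κ : k →+* Ω) (W : Type u) [CommRing W] [Algebra Ω W]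
    (p : Fin 3 → W) : Prop :=
  ∀ (d : ℕ) (b : Module.Basis (Fin d) Ω W), SmCfg κ (cfgOf b p)

/-- the point `(x,y,z)` of `AA Ω ⧸ I` -/
noncomputable def qp {Ω : Type u} [Field Ω] (I : Ideal (AA Ω)) : Fin 3 → AA Ω ⧸ I :=
  ![Ideal.Quotient.mk I (ax Ω), Ideal.Quotient.mk I (ay Ω), Ideal.Quotient.mk I (az Ω)]

/-- smoothability of an ideal of the local ring -/
def SmI {k Ω : Type u} [Field k] [Field Ω] (κ : k →+* Ω) (I : Ideal (AA Ω)) : Prop :=
  SmAt κ (AA Ω ⧸ I) (qp I)

end Pool.Agent.H12.HS
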