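import Pool.Agent.H12.HS.Targets
import Pool.Agent.H12.HS.Basic

/-!
# Main induction
-/

namespace Pool.Agent.H12.HS

open Matrix

universe u

/-- extension of a Hecke datum by zero -/
def HD.ext {P : Type u} [CommRing P] {g : P} {n n' : Type} [Fintype n] [Fintype n']
    (B : Matrix n' n' P) {T : Matrix n n P} (D : HD g T) :
    HD g (Matrix.fromBlocks B 0 0 T) where
  l := D.l
  s := D.s
  a := D.a
  h := D.h
  ψ := D.ψ
  u := Sum.elim 0 D.u
  u' := Sum.elim 0 D.u'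
  φ := Sum.elim 0 D.φ
  φ' := Sum.elim 0 D.φ'
  hg := D.hg
  hφu := by
    rw [sumElim_dotProduct_sumElim, D.hφu]
    simp
  hu := by
    rw [Matrix.fromBlocks_mulVec, Sum.elim_comp_inl, Sum.elim_comp_inr]
    ext i
    rcases i with i | i
    · simp
    · simp only [Sum.elim_inr, Pi.add_apply, Pi.smul_apply, D.hu]
      simp
  hφ := by
    rw [Matrix.vecMul_fromBlocks, Sum.elim_comp_inl, Sum.elim_comp_inr]
    ext i
    rcases i with i | i
    · simp
    · simp only [Sum.elim_inr, Pi.add_apply, Pi.smul_apply, D.hφ]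
      simp
  hψ := by
    rw [sumElim_dotProduct_sumElim, D.hψ]
    simp
  hl := D.hl
  hs := D.hs
  ha := D.ha

theorem HD.ext_D1 {P : Type u} [CommRing P] {g : P} {n n' : Type} [Fintype n] [Fintype n']
    (B : Matrix n' n' P) {T : Matrix n n P} (D : HD g T) :
    (D.ext B).D1 = Matrix.fromBlocks 0 0 0 D.D1 := by
  ext i j
  rcases i with i | i <;> rcases j with j | j <;>
    simp [HD.D1, HD.ext, Matrix.vecMulVec_apply]

theorem HD.ext_D2 {P : Type u} [CommRing P] {g : P} {n n' : Type} [Fintype n] [Fintype n']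
    (B : Matrix n' n' P) {T : Matrix n n P} (D : HD g T) :
    (D.ext B).D2 = Matrix.fromBlocks 0 0 0 D.D2 := by
  ext i j
  rcases i with i | i <;> rcases j with j | j <;>
    simp [HD.D2, HD.ext, Matrix.vecMulVec_apply]

section
variable {Ω : Type u} [Field Ω]

/-- extension of a Hecke datum to the block matrix -/
noncomputable def HD.blk (ρ : ℕ) {n : Type} [Fintype n] {T0 : Matrix n n (P2 Ω)}
    (D : HD (g4 Ω) T0) : HD (g4 Ω) (HS.blk ρ T0) :=
  D.ext (Matrix.blockDiagonal fun _ : Fin ρ => JJ (g4 Ω))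

theorem HD.blk_D1 (ρ : ℕ) {n : Type} [Fintype n] {T0 : Matrix n n (P2 Ω)}
    (D : HD (g4 Ω) T0) : (D.blk ρ).D1 = Matrix.fromBlocks 0 0 0 D.D1 := D.ext_D1 _

theorem HD.blk_D2 (ρ : ℕ) {n : Type} [Fintype n] {T0 : Matrix n n (P2 Ω)}
    (D : HD (g4 Ω) T0) : (D.blk ρ).D2 = Matrix.fromBlocks 0 0 0 D.D2 := D.ext_D2 _

theorem blk_apply_map {Ω' : Type u} [Field Ω'] (φ : Ω →+* Ω') (ρ : ℕ) {n : Type}
    (T0 : Matrix n n (P2 Ω)) :
    (blk ρ T0).map (mapP φ) = blk ρ (T0.map (mapP φ)) := by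
  ext i j
  rcases i with ⟨a, i⟩ | i <;> rcases j with ⟨b, j⟩ | j
  · simp only [blk, Matrix.map_apply, Matrix.fromBlocks_apply₁₁, Matrix.blockDiagonal_apply]
    split_ifs
    · fin_cases a <;> fin_cases b <;> simp [JJ, mapP_g4]
    · simp
  · simp [blk]
  · simp [blk]
  · simp [blk]

/-- equivalence used to absorb one more free block -/
def eqv (ρ : ℕ) (n : Type) : (Fin 2 × Fin (ρ + 1)) ⊕ n ≃ (Fin 2 × Fin ρ) ⊕ (Fin 2 ⊕ n) where
  toFun := Sum.elim
    (fun q => if h : (q.2 : ℕ) < ρ then Sum.inl (q.1, ⟨q.2, h⟩) else Sum.inr (Sum.inl q.1))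
    (fun i => Sum.inr (Sum.inr i))
  invFun := Sum.elim (fun q => Sum.inl (q.1, q.2.castSucc))
    (Sum.elim (fun a => Sum.inl (a, Fin.last ρ)) (fun i => Sum.inr i))
  left_inv := by
    rintro (⟨a, i⟩ | i)
    · by_cases h : (i : ℕ) < ρ
      · simp [h]
      · have : i = Fin.last ρ := by
          apply Fin.ext
          have := i.2
          simp
          omega
        subst this
        simp
    · simp
  right_inv := by
    rintro (⟨a, i⟩ | a | i)
    · simp
    · simp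
    · simp

theorem blk_succ (ρ : ℕ) {n : Type} (T1 : Matrix n n (P2 Ω)) :
    (Matrix.fromBlocks (Matrix.blockDiagonal fun _ : Fin ρ => JJ (g4 Ω)) 0 0
      (Matrix.fromBlocks (JJ (g4 Ω)) 0 0 T1)).submatrix (eqv ρ n) (eqv ρ n) =
    blk (ρ + 1) T1 := by
  ext i j
  rcases i with ⟨a, i⟩ | i <;> rcases j with ⟨b, j⟩ | j
  · simp only [Matrix.submatrix_apply, blk, Matrix.fromBlocks_apply₁₁,
      Matrix.blockDiagonal_apply, eqv, Equiv.coe_fn_mk, Sum.elim_inl]
    by_cases hi : (i : ℕ) < ρ <;> by_cases hj : (j : ℕ) < ρ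
    · simp only [hi, hj, dite_true, Matrix.fromBlocks_apply₁₁, Matrix.blockDiagonal_apply]
      by_cases hij : i = j
      · subst hij; simp
      · have : ¬ ((⟨i, hi⟩ : Fin ρ) = ⟨j, hj⟩) := by
          intro h
          apply hij
          apply Fin.ext
          simpa using h
        rw [if_neg hij, if_neg this]
    · have hij : i ≠ j := by rintro rfl; exact hj hi
      simp [hi, hj, hij]
    · have hij : i ≠ j := by rintro rfl; exact hi hj
      simp [hi, hj, hij]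
    · have hij : i = j := by
        apply Fin.ext
        have := i.2
        have := j.2
        omega
      subst hij
      simp [hi]
  · by_cases hi : (i : ℕ) < ρ <;> simp [blk, eqv, hi]
  · by_cases hj : (j : ℕ) < ρ <;> simp [blk, eqv, hj]
  · simp [blk, eqv]

end

/-- the extension field `Ω'` and the embedding of `Ω[[t]]` -/
abbrev Ext (Ω : Type u) [Field Ω] : Type u := AlgebraicClosure (FractionRing (PowerSeries Ω))

noncomputable def iot (Ω : Type u) [Field Ω] : PowerSeries Ω →+* Ext Ω :=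
  (algebraMap (FractionRing (PowerSeries Ω)) (Ext Ω)).comp
    (algebraMap (PowerSeries Ω) (FractionRing (PowerSeries Ω)))

theorem iot_injective (Ω : Type u) [Field Ω] : Function.Injective (iot Ω) := by
  unfold iot
  rw [RingHom.coe_comp]
  exact (FaithfulSMul.algebraMap_injective _ _).comp (IsFractionRing.injective _ _)

/-- `t a + t^2 b = 0` implies `a = b = 0`. -/
theorem eq_zero_of_iota {Ω Ω' : Type u} [Field Ω] [Field Ω'] (ι : PowerSeries Ω →+* Ω')
    (hι : Function.Injective ι) (a b : Ω)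
    (h : ι PowerSeries.X * ι (PowerSeries.C a) + ι PowerSeries.X ^ 2 * ι (PowerSeries.C b) = 0) :
    a = 0 ∧ b = 0 := by
  rw [← map_mul, ← map_pow, ← map_mul, ← map_add] at h
  have h1 : (PowerSeries.X : PowerSeries Ω) * PowerSeries.C a +
      PowerSeries.X ^ 2 * PowerSeries.C b = 0 := hι (by rw [h, map_zero])
  have h2 := congrArg (PowerSeries.coeff 1) h1
  have h3 := congrArg (PowerSeries.coeff 2) h1
  constructor
  · simpa [PowerSeries.coeff_X_pow_mul', PowerSeries.coeff_succ_X_mul, PowerSeries.coeff_C]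
      using h2
  · have e : PowerSeries.coeff 2 ((PowerSeries.X : PowerSeries Ω) * PowerSeries.C a) = 0 := by
      rw [show (2 : ℕ) = 1 + 1 from rfl, PowerSeries.coeff_succ_X_mul, PowerSeries.coeff_C]
      simp
    rw [map_add, e, zero_add, PowerSeries.coeff_X_pow_mul'] at h3
    simpa using h3

section Induction

/-- the inductive statement -/
def QQ (r : ℕ) : Prop := ∀ (k Ω : Type u) [Field k] [Field Ω] [IsAlgClosed k] [IsAlgClosed Ω]
  [CharZero k] (κ : k →+* Ω) (m ρ : ℕ) (T0 : Matrix (Fin (2 * r)) (Fin (2 * r)) (P2 Ω))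
  (lam : Fin (m + 1) → (Fin 2 × Fin ρ) ⊕ Fin (2 * r) → P2 Ω) (f : Fin (m + 1) → AA Ω),
  Pres (blk ρ T0) lam f → SmI κ (Ideal.span (Set.range f))

theorem sq_T0 {Ω : Type u} [Field Ω] {m ρ : ℕ} {n : Type} [Fintype n] [DecidableEq n]
    {T0 : Matrix n n (P2 Ω)}
    {lam : Fin (m + 1) → (Fin 2 × Fin ρ) ⊕ n → P2 Ω} {f : Fin (m + 1) → AA Ω}
    (h : Pres (blk ρ T0) lam f) : T0 * T0 = g4 Ω • (1 : Matrix n n (P2 Ω)) := by
  have h1 := h.sq
  rw [blk, Matrix.fromBlocks_multiply] at h1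
  refine Matrix.ext fun i j => ?_
  have h2 := congrFun (congrFun h1 (Sum.inr i)) (Sum.inr j)
  simpa [Matrix.one_apply] using h2

/-- Lemma A: `T0(0) ≠ 0`. -/
theorem lemA (hCB : T_CB.{u}) (hST : T_STRIP.{u}) (r : ℕ) (ih : QQ.{u} r)
    (k Ω : Type u) [Field k] [Field Ω] [IsAlgClosed k] [IsAlgClosed Ω]
    [CharZero k] (κ : k →+* Ω) (m ρ : ℕ)
    (T0 : Matrix (Fin (2 * (r + 1))) (Fin (2 * (r + 1))) (P2 Ω))
    (lam : Fin (m + 1) → (Fin 2 × Fin ρ) ⊕ Fin (2 * (r + 1)) → P2 Ω) (f : Fin (m + 1) → AA Ω)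
    (h : Pres (blk ρ T0) lam f) (h0 : T0.map ev0 ≠ 0) : SmI κ (Ideal.span (Set.range f)) := by
  obtain ⟨T1, S, S', hSS', hS'S, hT⟩ := hST Ω r T0 (sq_T0 h) h0
  -- first change of basis
  let B1 : Matrix ((Fin 2 × Fin ρ) ⊕ Fin (2 * (r + 1))) ((Fin 2 × Fin ρ) ⊕ (Fin 2 ⊕ Fin (2 * r)))
    (P2 Ω) := Matrix.fromBlocks 1 0 0 S
  let B1' : Matrix ((Fin 2 × Fin ρ) ⊕ (Fin 2 ⊕ Fin (2 * r))) ((Fin 2 × Fin ρ) ⊕ Fin (2 * (r + 1)))
    (P2 Ω) := Matrix.fromBlocks 1 0 0 S'
  have hB : B1 * B1' = 1 := by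
    simp [B1, B1', Matrix.fromBlocks_multiply, hSS', Matrix.fromBlocks_one]
  have hB' : B1' * B1 = 1 := by
    simp [B1, B1', Matrix.fromBlocks_multiply, hS'S, Matrix.fromBlocks_one]
  have hBT : B1' * blk ρ T0 * B1 =
      Matrix.fromBlocks (Matrix.blockDiagonal fun _ : Fin ρ => JJ (g4 Ω)) 0 0
        (Matrix.fromBlocks (JJ (g4 Ω)) 0 0 T1) := by
    simp only [B1, B1', blk, Matrix.fromBlocks_multiply, Matrix.one_mul, Matrix.mul_one,
      Matrix.zero_mul, Matrix.mul_zero, add_zero, zero_add, hT]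
  -- reindexing
  let e := eqv ρ (Fin (2 * r))
  let S2 := B1.submatrix id e
  let S2' := B1'.submatrix e id
  have h1 : S2 * S2' = 1 := by
    simp only [S2, S2']
    rw [Matrix.submatrix_mul_equiv, hB, Matrix.submatrix_id_id]
  have h2 : S2' * S2 = 1 := by
    simp only [S2, S2']
    rw [← Matrix.submatrix_mul _ _ e id e Function.bijective_id, hB']
    simp
  have h3 : S2' * blk ρ T0 * S2 = blk (ρ + 1) T1 := by
    rw [← blk_succ, ← hBT]
    simp only [S2, S2']
    have : blk ρ T0 = (blk ρ T0).submatrix id id := by simp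
    rw [this, ← Matrix.submatrix_mul _ _ e id id Function.bijective_id,
      ← Matrix.submatrix_mul _ _ e id e Function.bijective_id]
    rfl
  have hP := hCB Ω m _ _ _ _ _ S2 S2' h1 h2 h
  rw [h3] at hP
  exact ih k Ω κ m (ρ + 1) T1 _ f hP

theorem blk_family {Ω Ω' : Type u} [Field Ω] [Field Ω'] (φ : Ω →+* Ω') (c d : P2 Ω') (ρ : ℕ)
    {n : Type} [Fintype n] (T0 D1 D2 : Matrix n n (P2 Ω)) :
    (blk ρ T0).map (mapP φ) +
      c • (Matrix.fromBlocks 0 0 0 D1 :
        Matrix ((Fin 2 × Fin ρ) ⊕ n) ((Fin 2 × Fin ρ) ⊕ n) (P2 Ω)).map (mapP φ) +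
      d • (Matrix.fromBlocks 0 0 0 D2 :
        Matrix ((Fin 2 × Fin ρ) ⊕ n) ((Fin 2 × Fin ρ) ⊕ n) (P2 Ω)).map (mapP φ) =
    blk ρ (T0.map (mapP φ) + c • D1.map (mapP φ) + d • D2.map (mapP φ)) := by
  rw [blk_apply_map]
  ext i j
  rcases i with i | i <;> rcases j with j | j <;> simp [blk]

/-- Lemma B: `T0(0) = 0`, nonzero linear part. -/
theorem lemB (hCB : T_CB.{u}) (hST : T_STRIP.{u}) (hXX : T_XX.{u}) (hS : T_STEP.{u})
    (r : ℕ) (hr : 1 ≤ r) (ih : QQ.{u} r)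
    (k Ω : Type u) [Field k] [Field Ω] [IsAlgClosed k] [IsAlgClosed Ω]
    [CharZero k] (κ : k →+* Ω) (m ρ : ℕ)
    (T0 : Matrix (Fin (2 * (r + 1))) (Fin (2 * (r + 1))) (P2 Ω))
    (lam : Fin (m + 1) → (Fin 2 × Fin ρ) ⊕ Fin (2 * (r + 1)) → P2 Ω) (f : Fin (m + 1) → AA Ω)
    (h : Pres (blk ρ T0) lam f) (h0 : T0.map ev0 = 0)
    (h1 : T0.map lx ≠ 0 ∨ T0.map ly ≠ 0) : SmI κ (Ideal.span (Set.range f)) := by
  have : CharZero Ω := charZero_of_hom κ
  obtain ⟨D, hDs, hD1⟩ := hXX Ω _ T0 (sq_T0 h) h0 (by simp; omega) h1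
  let Ω' := Ext Ω
  let ι := iot Ω
  have hι : Function.Injective ι := iot_injective Ω
  obtain ⟨F, hP, hSm⟩ := hS k Ω Ω' κ ι hι m _ (blk ρ T0) lam f h
    (D.blk ρ) hDs
  apply hSm
  rw [HD.blk_D1, HD.blk_D2, blk_family] at hP
  refine lemA hCB hST r ih k Ω' _ m ρ _ _ F hP ?_
  intro h2
  apply hD1
  ext i j
  have h3 := congrFun (congrFun h2 i) j
  simp only [Matrix.map_apply, Matrix.add_apply, Matrix.smul_apply, smul_eq_mul, map_add, map_mul,
    ev0_mapP, ev0_cst, Matrix.zero_apply] at h3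
  have h4 : ev0 (T0 i j) = 0 := congrFun (congrFun h0 i) j
  rw [h4, map_zero, zero_add] at h3
  exact (eq_zero_of_iota ι hι _ _ h3).1

/-- Lemma C: `T0(0) = 0`, zero linear part. -/
theorem lemC (hCB : T_CB.{u}) (hST : T_STRIP.{u}) (hXX : T_XX.{u}) (hBB : T_BB.{u})
    (hS : T_STEP.{u}) (r : ℕ) (hr : 1 ≤ r) (ih : QQ.{u} r)
    (k Ω : Type u) [Field k] [Field Ω] [IsAlgClosed k] [IsAlgClosed Ω]
    [CharZero k] (κ : k →+* Ω) (m ρ : ℕ)
    (T0 : Matrix (Fin (2 * (r + 1))) (Fin (2 * (r + 1))) (P2 Ω))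
    (lam : Fin (m + 1) → (Fin 2 × Fin ρ) ⊕ Fin (2 * (r + 1)) → P2 Ω) (f : Fin (m + 1) → AA Ω)
    (h : Pres (blk ρ T0) lam f) (h0 : T0.map ev0 = 0)
    (hx : T0.map lx = 0) (hy : T0.map ly = 0) : SmI κ (Ideal.span (Set.range f)) := by
  have : CharZero Ω := charZero_of_hom κ
  obtain ⟨D, hDs, hD1, hD⟩ := hBB Ω _ T0 (sq_T0 h) h0 hx hy (by simp; omega)
  let Ω' := Ext Ω
  let ι := iot Ω
  have hι : Function.Injective ι := iot_injective Ω
  obtain ⟨F, hP, hSm⟩ := hS k Ω Ω' κ ι hι m _ (blk ρ T0) lam f h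
    (D.blk ρ) hDs
  apply hSm
  rw [HD.blk_D1, HD.blk_D2, blk_family] at hP
  by_cases h2 : (T0.map (mapP (ι.comp PowerSeries.C)) +
      cst (ι PowerSeries.X) • D.D1.map (mapP (ι.comp PowerSeries.C)) +
      cst (ι PowerSeries.X ^ 2) • D.D2.map (mapP (ι.comp PowerSeries.C))).map ev0 = 0
  swap
  · exact lemA hCB hST r ih k Ω' _ m ρ _ _ F hP h2
  refine lemB hCB hST hXX hS r hr ih k Ω' _ m ρ _ _ F hP h2 ?_
  have hD2 : D.D2.map ev0 = 0 := by
    ext i j
    have h3 := congrFun (congrFun h2 i) j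
    simp only [Matrix.map_apply, Matrix.add_apply, Matrix.smul_apply, smul_eq_mul, map_add,
      map_mul, ev0_mapP, ev0_cst, Matrix.zero_apply] at h3
    have h4 : ev0 (T0 i j) = 0 := congrFun (congrFun h0 i) j
    rw [h4, map_zero, zero_add] at h3
    exact (eq_zero_of_iota ι hι _ _ h3).2
  have hlin : D.D1.map lx ≠ 0 ∨ D.D1.map ly ≠ 0 := by
    rcases hD with h5 | h5
    · exact absurd hD2 h5
    · exact h5
  by_contra h6
  push Not at h6
  obtain ⟨h6, h7⟩ := h6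
  rcases hlin with h8 | h8
  · apply h8
    ext i j
    have h3 := congrFun (congrFun h6 i) j
    simp only [Matrix.map_apply, Matrix.add_apply, Matrix.smul_apply, smul_eq_mul, lx_add,
      lx_cst_mul, lx_mapP, Matrix.zero_apply] at h3
    have h4 : lx (T0 i j) = 0 := congrFun (congrFun hx i) j
    rw [h4, map_zero, zero_add] at h3
    exact (eq_zero_of_iota ι hι _ _ h3).1
  · apply h8
    ext i j
    have h3 := congrFun (congrFun h7 i) j
    simp only [Matrix.map_apply, Matrix.add_apply, Matrix.smul_apply, smul_eq_mul, ly_add,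
      ly_cst_mul, ly_mapP, Matrix.zero_apply] at h3
    have h4 : ly (T0 i j) = 0 := congrFun (congrFun hy i) j
    rw [h4, map_zero, zero_add] at h3
    exact (eq_zero_of_iota ι hι _ _ h3).1

/-- base case `r = 0` -/
theorem base (hF : T_FREE.{u}) (hHB : T_HB.{u}) : QQ.{u} 0 := by
  intro k Ω _ _ _ _ _ κ m ρ T0 lam f h
  have : CharZero Ω := charZero_of_hom κ
  have hρ : ρ = m := by
    have h1 := h.card
    simp at h1
    omega
  subst hρ
  have h1 := hF Ω ρ _ (blk ρ T0) lam f h (fun j => Pi.single (Sum.inl (0, j)) 1) (by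
    intro v
    refine ⟨fun j => v (Sum.inl (0, j)), fun j => v (Sum.inl (1, j)), ?_⟩
    have hcol : ∀ j : Fin ρ, blk ρ T0 *ᵥ (Pi.single (Sum.inl (0, j)) 1) =
        Pi.single (Sum.inl (1, j)) 1 := by
      intro j
      rw [Matrix.mulVec_single_one]
      ext i
      rcases i with ⟨a, i⟩ | i
      · simp only [Matrix.col_apply, blk, Matrix.fromBlocks_apply₁₁,
          Matrix.blockDiagonal_apply, Pi.single_apply]
        by_cases hij : i = j
        · subst hij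
          fin_cases a <;> simp [JJ]
        · simp [hij]
      · simp [blk]
    simp only [hcol]
    ext i
    rcases i with ⟨a, i⟩ | i
    · simp only [Finset.sum_apply, Pi.add_apply, Pi.smul_apply, Pi.single_apply, smul_eq_mul,
        Sum.inl.injEq, Prod.mk.injEq]
      fin_cases a
      · simp
      · simp
    · exact i.elim0)
  rw [h1]
  apply hHB k Ω κ ρ
  rw [← h1]
  exact h.cofI

theorem QQ_all (hCB : T_CB.{u}) (hST : T_STRIP.{u}) (hF : T_FREE.{u}) (hR1 : T_R1.{u})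
    (hHB : T_HB.{u}) (hXX : T_XX.{u}) (hBB : T_BB.{u}) (hS : T_STEP.{u}) (r : ℕ) :
    QQ.{u} r := by
  induction r with
  | zero => exact base hF hHB
  | succ r ih =>
    intro k Ω _ _ _ _ _ κ m ρ T0 lam f h
    have : CharZero Ω := charZero_of_hom κ
    by_cases h0 : T0.map ev0 = 0
    · rcases Nat.eq_zero_or_pos r with hr | hr
      · subst hr
        exact (hR1 Ω m ρ T0 lam f h h0).elim
      · by_cases h1 : T0.map lx ≠ 0 ∨ T0.map ly ≠ 0
        · exact lemB hCB hST hXX hS r hr ih k Ω κ m ρ T0 lam f h h0 h1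
        · push Not at h1
          exact lemC hCB hST hXX hBB hS r hr ih k Ω κ m ρ T0 lam f h h0 h1.1 h1.2
    · exact lemA hCB hST r ih k Ω κ m ρ T0 lam f h h0

/-- **MAIN** -/
theorem main (hE : T_EXIST.{u}) (hCB : T_CB.{u}) (hST : T_STRIP.{u}) (hF : T_FREE.{u})
    (hR1 : T_R1.{u}) (hHB : T_HB.{u}) (hXX : T_XX.{u}) (hBB : T_BB.{u}) (hS : T_STEP.{u}) :
    T_MAIN.{u} := by
  intro k Ω _ _ _ _ _ κ I hI
  obtain ⟨m, T, lam, f, hP, hf⟩ := hE Ω I hI
  -- put `T` in the form `blk 0 T`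
  let e : (Fin 2 × Fin 0) ⊕ Fin (2 * m) ≃ Fin (2 * m) := Equiv.emptySum _ _
  let S : Matrix (Fin (2 * m)) ((Fin 2 × Fin 0) ⊕ Fin (2 * m)) (P2 Ω) :=
    (1 : Matrix (Fin (2 * m)) (Fin (2 * m)) (P2 Ω)).submatrix id e
  let S' : Matrix ((Fin 2 × Fin 0) ⊕ Fin (2 * m)) (Fin (2 * m)) (P2 Ω) :=
    (1 : Matrix (Fin (2 * m)) (Fin (2 * m)) (P2 Ω)).submatrix e id
  have h1 : S * S' = 1 := by
    simp only [S, S']
    rw [Matrix.submatrix_mul_equiv, Matrix.one_mul, Matrix.submatrix_id_id]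
  have h2 : S' * S = 1 := by
    simp only [S, S']
    rw [← Matrix.submatrix_mul _ _ e id e Function.bijective_id, Matrix.one_mul]
    simp
  have h3 : S' * T * S = blk 0 T := by
    simp only [S, S']
    have h4 : T = T.submatrix id id := by simp
    conv_lhs => rw [h4]
    rw [← Matrix.submatrix_mul _ _ e id id Function.bijective_id,
      ← Matrix.submatrix_mul _ _ e id e Function.bijective_id, Matrix.one_mul, Matrix.mul_one]
    ext i j
    rcases i with ⟨a, i⟩ | i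
    · exact i.elim0
    · rcases j with ⟨a, j⟩ | j
      · exact j.elim0
      · rfl
  have hP' := hCB Ω m _ _ _ _ _ S S' h1 h2 hP
  rw [h3] at hP'
  exact SmI.congr hf (QQ_all hCB hST hF hR1 hHB hXX hBB hS m k Ω κ m 0 T _ f hP')

end Induction

end Pool.Agent.H12.HS
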