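import Mathlib

/-!
# The statement: closed points of Hilbert schemes, du Val singularities, the surface
-/

namespace Pool.Agent.H12.HS

open CategoryTheory

universe u

/-- The set of closed points of the Hilbert scheme of `d` points of `Spec A` (`A` a finitely
generated algebra over an algebraically closed field `k`): ideals `I` of `A` with
`dim_k A/I = d`. -/
def HilbPt (k A : Type u) [Field k] [CommRing A] [Algebra k A] (d : ℕ) : Type u :=
  {I : Ideal A // Module.Finite k (A ⧸ I) ∧ Module.finrank k (A ⧸ I) = d}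

/-- For `w : Fin d → A` and a polynomial `F` in variables indexed by `A × Fin d`: the set of
the `I` such that `w` is a basis of `A/I` and `F` does not vanish at the coordinates `c (a, i)`
of the classes `a = ∑ c (a, i) w_i` of the elements of `A`. -/
def basicOpen (k A : Type u) [Field k] [CommRing A] [Algebra k A] (d : ℕ) (w : Fin d → A)
    (F : MvPolynomial (A × Fin d) k) : Set (HilbPt k A d) :=
  {I | ∃ c : A × Fin d → k, (∀ a : A, a - ∑ i, c (a, i) • w i ∈ I.1) ∧
    MvPolynomial.eval c F ≠ 0}

/-- The Zariski topology on the closed points of the Hilbert scheme: the charts are the sets of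
the ideals modulo which a given `w` is a basis, with the structure constants as coordinates. -/
instance (k A : Type u) [Field k] [CommRing A] [Algebra k A] (d : ℕ) :
    TopologicalSpace (HilbPt k A d) :=
  TopologicalSpace.generateFrom {U | ∃ w F, U = basicOpen k A d w F}

/-- the equations of the du Val singularities (in `k[[x,y,z]]`, variables `X 0, X 1, X 2`) -/
inductive IsDuValEquation (k : Type u) [Field k] : MvPowerSeries (Fin 3) k → Prop
  | A (n : ℕ) (hn : 1 ≤ n) : IsDuValEquation k
      (MvPowerSeries.X 0 ^ 2 + MvPowerSeries.X 1 ^ 2 + MvPowerSeries.X 2 ^ (n + 1))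
  | D (n : ℕ) (hn : 4 ≤ n) : IsDuValEquation k
      (MvPowerSeries.X 0 ^ 2 + MvPowerSeries.X 1 ^ 2 * MvPowerSeries.X 2 +
        MvPowerSeries.X 2 ^ (n - 1))
  | E6 : IsDuValEquation k
      (MvPowerSeries.X 0 ^ 2 + MvPowerSeries.X 1 ^ 3 + MvPowerSeries.X 2 ^ 4)
  | E7 : IsDuValEquation k
      (MvPowerSeries.X 0 ^ 2 + MvPowerSeries.X 1 ^ 3 + MvPowerSeries.X 1 * MvPowerSeries.X 2 ^ 3)
  | E8 : IsDuValEquation k
      (MvPowerSeries.X 0 ^ 2 + MvPowerSeries.X 1 ^ 3 + MvPowerSeries.X 2 ^ 5)

/-- a ring is the complete local ring of a du Val singularity -/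
def IsDuVal (k R : Type u) [Field k] [CommRing R] : Prop :=
  ∃ f : MvPowerSeries (Fin 3) k, IsDuValEquation k f ∧
    Nonempty (R ≃+* (MvPowerSeries (Fin 3) k ⧸ Ideal.span {f}))

/-- the completed local ring of `Spec A` at a prime ideal -/
abbrev CompletedLocalRing {A : Type u} [CommRing A] (m : Ideal A) [m.IsPrime] : Type u :=
  AdicCompletion (IsLocalRing.maximalIdeal (Localization.AtPrime m)) (Localization.AtPrime m)

/-- the coordinate ring of the surface `z^2 = x^4 + y^4` -/
abbrev SurfRing (k : Type u) [Field k] : Type u :=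
  MvPolynomial (Fin 3) k ⧸ Ideal.span
    {(MvPolynomial.X 2 ^ 2 - (MvPolynomial.X 0 ^ 4 + MvPolynomial.X 1 ^ 4) :
      MvPolynomial (Fin 3) k)}

/-- the ideal of the origin -/
noncomputable def origin (k : Type u) [Field k] : Ideal (SurfRing k) :=
  Ideal.span (Set.range fun i : Fin 3 => Ideal.Quotient.mk _ (MvPolynomial.X i))

/-! ### The Hilbert functor -/

section Functor

open CategoryTheory AlgebraicGeometry TensorProduct

/-- Flat families of `d` points on `Spec A`, parametrised by `Spec R`: ideals `I` of `R ⊗ A` such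
that `(R ⊗ A)/I` is a finitely generated projective `R`-module of constant rank `d`. -/
def HilbFam (k A R : Type u) [Field k] [CommRing A] [Algebra k A] [CommRing R] [Algebra k R]
    (d : ℕ) : Type u :=
  {I : Ideal (R ⊗[k] A) // Module.Finite R ((R ⊗[k] A) ⧸ I) ∧
    Module.Projective R ((R ⊗[k] A) ⧸ I) ∧
    ∀ p : PrimeSpectrum R, Module.rankAtStalk (R := R) ((R ⊗[k] A) ⧸ I) p = d}

/-- A `k`-scheme `H` represents the Hilbert functor of `d` points of `Spec A` (on affine
`k`-schemes, which is enough since the functor is a Zariski sheaf): natural bijections between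
the morphisms `Spec R ⟶ H` over `k` and the flat families parametrised by `Spec R`. -/
def IsHilbertScheme (k A : Type u) [Field k] [CommRing A] [Algebra k A] (d : ℕ)
    (H : Scheme.{u}) (s : H ⟶ Spec (CommRingCat.of k)) : Prop :=
  ∃ fam : ∀ (R : Type u) [CommRing R] [Algebra k R],
      {f : Spec (CommRingCat.of R) ⟶ H //
        f ≫ s = Spec.map (CommRingCat.ofHom (algebraMap k R))} → HilbFam k A R d,
    (∀ (R : Type u) [CommRing R] [Algebra k R], Function.Bijective (fam R)) ∧
    ∀ (R R' : Type u) [CommRing R] [Algebra k R] [CommRing R'] [Algebra k R'] (φ : R →ₐ[k] R')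
      (f : {f : Spec (CommRingCat.of R) ⟶ H //
        f ≫ s = Spec.map (CommRingCat.ofHom (algebraMap k R))})
      (f' : {f : Spec (CommRingCat.of R') ⟶ H //
        f ≫ s = Spec.map (CommRingCat.ofHom (algebraMap k R'))}),
      f'.1 = Spec.map (CommRingCat.ofHom φ.toRingHom) ≫ f.1 →
      (fam R' f').1 = (fam R f).1.map (Algebra.TensorProduct.map φ (AlgHom.id k A)).toRingHom

end Functor

/-! ### Targets -/

/-- DOMN: `S` is an integral normal affine surface. -/
def T_NORM : Prop := ∀ (k : Type u) [Field k] [IsAlgClosed k] [CharZero k],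
  IsDomain (SurfRing k) ∧ IsIntegrallyClosed (SurfRing k)

def T_DIM : Prop := ∀ (k : Type u) [Field k] [IsAlgClosed k] [CharZero k],
  ringKrullDim (SurfRing k) = 2

/-- the origin is a maximal ideal and a singular point -/
def T_SING : Prop := ∀ (k : Type u) [Field k] [IsAlgClosed k] [CharZero k],
  ∃ _ : (origin k).IsMaximal, ¬ IsRegularLocalRing (Localization.AtPrime (origin k))

/-- NDV: the origin is not du Val. -/
def T_NDV : Prop := ∀ (k : Type u) [Field k] [IsAlgClosed k] [CharZero k]
  (_ : (origin k).IsMaximal), ¬ IsDuVal k (CompletedLocalRing (origin k))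

/-- the final theorem -/
def T_FINAL : Prop := ∀ (k : Type u) [Field k] [IsAlgClosed k] [CharZero k],
  IsDomain (SurfRing k) ∧ IsIntegrallyClosed (SurfRing k) ∧
  Algebra.FiniteType k (SurfRing k) ∧ ringKrullDim (SurfRing k) = 2 ∧
  (∃ _ : (origin k).IsMaximal, ¬ IsRegularLocalRing (Localization.AtPrime (origin k)) ∧
    ¬ IsDuVal k (CompletedLocalRing (origin k))) ∧
  (∀ d : ℕ, 1 ≤ d → IrreducibleSpace (HilbPt k (SurfRing k) d)) ∧
  (∀ d : ℕ, 1 ≤ d → ∀ (H : AlgebraicGeometry.Scheme.{u})
    (s : H ⟶ AlgebraicGeometry.Spec (CommRingCat.of k)),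
    IsHilbertScheme k (SurfRing k) d H s → IrreducibleSpace H)

end Pool.Agent.H12.HS
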