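import Pool.Agent.H12.HS.Defs
import Pool.Agent.H12.HS.Stmt

/-!
# Targets of the modules (MP_eb1332_ag): one closed proposition per module.
-/

namespace Pool.Agent.H12.HS

open Matrix CategoryTheory

universe u

/-! ## A. The local ring -/

/-- RS: powers of `x` and `y` form regular sequences in `P2` and `AA`. -/
def T_RS : Prop := ∀ (Ω : Type u) [Field Ω] (N M : ℕ),
  (∀ a b : P2 Ω, px Ω ^ N * a = py Ω ^ M * b → ∃ c, a = py Ω ^ M * c ∧ b = px Ω ^ N * c) ∧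
  (∀ a b : AA Ω, ax Ω ^ N * a = ay Ω ^ M * b → ∃ c, a = ay Ω ^ M * c ∧ b = ax Ω ^ N * c)

/-- DOM: `x^4+y^4` is not a square in the fraction field of `P2`, and `AA` is a domain. -/
def T_DOM : Prop := ∀ (Ω : Type u) [Field Ω] [IsAlgClosed Ω] [CharZero Ω],
  (∀ p q : P2 Ω, p ^ 2 = g4 Ω * q ^ 2 → q = 0) ∧ IsDomain (AA Ω)

/-- AUT: shears and the swap are automorphisms of `P2`. -/
def T_AUT : Prop := ∀ (Ω : Type u) [Field Ω],
  (∀ c : Ω, ∃ σ : P2 Ω ≃+* P2 Ω, (∀ a, σ (cst a) = cst a) ∧ σ (px Ω) = px Ω ∧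
    σ (py Ω) = py Ω + cst c * px Ω ∧ (∀ p, ev0 (σ p) = ev0 p) ∧
    (∀ p, lx (σ p) = lx p + c * ly p) ∧ (∀ p, ly (σ p) = ly p)) ∧
  (∃ σ : P2 Ω ≃+* P2 Ω, (∀ a, σ (cst a) = cst a) ∧ σ (px Ω) = py Ω ∧
    σ (py Ω) = px Ω ∧ (∀ p, ev0 (σ p) = ev0 p) ∧
    (∀ p, lx (σ p) = ly p) ∧ (∀ p, ly (σ p) = lx p))

/-- EVN: homomorphisms from `AA` to a ring in which `x`, `y` are nilpotent: existence and
uniqueness. -/
def T_EVN : Prop := ∀ (Ω B : Type u) [Field Ω] [CommRing B] (j : Ω →+* B) (x y z : B),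
  IsNilpotent x → IsNilpotent y → z ^ 2 = x ^ 4 + y ^ 4 →
  (∃ β : AA Ω →+* B, (∀ c, β (algebraMap Ω (AA Ω) c) = j c) ∧ β (ax Ω) = x ∧ β (ay Ω) = y ∧
    β (az Ω) = z) ∧
  (∀ β β' : AA Ω →+* B, (∀ c, β (algebraMap Ω (AA Ω) c) = β' (algebraMap Ω (AA Ω) c)) →
    β (ax Ω) = β' (ax Ω) → β (ay Ω) = β' (ay Ω) → β (az Ω) = β' (az Ω) →
    IsNilpotent (β (ax Ω)) → IsNilpotent (β (ay Ω)) → β = β')

/-- TAU: the homomorphism `AA Ω [[t]] → AA Ω'` attached to `ι : Ω[[t]] → Ω'`, and its universal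
property. -/
def T_TAU : Prop := ∀ (Ω Ω' : Type u) [Field Ω] [Field Ω'] (ι : PowerSeries Ω →+* Ω'),
  ∃ τ : PowerSeries (AA Ω) →+* AA Ω',
    (∀ p : PowerSeries Ω, τ (PowerSeries.map (algebraMap Ω (AA Ω)) p) =
      algebraMap Ω' (AA Ω') (ι p)) ∧
    (∀ a : AA Ω, τ (PowerSeries.C a) = mapA (ι.comp PowerSeries.C) a) ∧
    (∀ (B : Type u) [CommRing B] (j : Ω' →+* B) (γ : PowerSeries (AA Ω) →+* B),
      (∀ p : PowerSeries Ω, γ (PowerSeries.map (algebraMap Ω (AA Ω)) p) = j (ι p)) →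
      IsNilpotent (γ (PowerSeries.C (ax Ω))) → IsNilpotent (γ (PowerSeries.C (ay Ω))) →
      ∃ β : AA Ω' →+* B, (∀ a, β (τ a) = γ a) ∧ (∀ c, β (algebraMap Ω' (AA Ω') c) = j c))

/-! ## B. Smoothability of configurations -/

/-- RED: configurations of distinct points over `Ω` are smoothable. -/
def T_RED : Prop := ∀ (k Ω : Type u) [Field k] [Field Ω] [IsAlgClosed k] (κ : k →+* Ω) (d : ℕ)
  (c : Cfg d Ω), IsRed c → SmCfg κ c

/-- EXT: polynomials over `Ω` vanishing on a set of `k`-points. -/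
def T_EXT : Prop := ∀ (k Ω : Type u) [Field k] [Field Ω] (κ : k →+* Ω) (σ : Type) (E : Set (σ → k))
  (c : σ → Ω), (∀ F : MvPolynomial σ k, (∀ e ∈ E, MvPolynomial.eval e F = 0) →
    MvPolynomial.eval₂ κ c F = 0) →
  ∀ G : MvPolynomial σ Ω, (∀ e ∈ E, MvPolynomial.eval (κ ∘ e) G = 0) → MvPolynomial.eval c G = 0

/-- CONJ: smoothability does not depend on the basis. -/
def T_CONJ : Prop := ∀ (k Ω : Type u) [Field k] [Field Ω] [IsAlgClosed k] (κ : k →+* Ω) (d : ℕ)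
  (c : Cfg d Ω) (U V : Matrix (Fin d) (Fin d) Ω), U * V = 1 → SmCfg κ c →
  SmCfg κ ⟨fun a => U * c.M a * V, U *ᵥ c.v⟩

/-- SUM: products. -/
def T_SUM : Prop := ∀ (k Ω : Type u) [Field k] [Field Ω] [IsAlgClosed k] [CharZero k]
  (κ : k →+* Ω) (W1 W2 : Type u) [CommRing W1] [CommRing W2] [Algebra Ω W1] [Algebra Ω W2]
  [Module.Finite Ω W1] [Module.Finite Ω W2] (p1 : Fin 3 → W1) (p2 : Fin 3 → W2),
  SmAt κ W1 p1 → SmAt κ W2 p2 →
  Algebra.adjoin Ω (Set.range fun i => (p1 i, p2 i)) = ⊤ →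
  SmAt κ (W1 × W2) (fun i => (p1 i, p2 i))

/-! ## C. Smooth points -/

/-- NOND: every matrix commutes with a nonderogatory one. -/
def T_NOND : Prop := ∀ (Ω : Type u) [Field Ω] [IsAlgClosed Ω] (d : ℕ)
  (X : Matrix (Fin d) (Fin d) Ω), ∃ (R : Matrix (Fin d) (Fin d) Ω) (w : Fin d → Ω),
  R * X = X * R ∧ ∀ v : Fin d → Ω, ∃ q : Polynomial Ω, v = (Polynomial.aeval R q) *ᵥ w

/-- GEN: `Y + t R` is nonderogatory for a transcendental `t` if `R` is nonderogatory. -/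
def T_GEN : Prop := ∀ (Ω Ω' : Type u) [Field Ω] [Field Ω'] (ι : PowerSeries Ω →+* Ω'),
  Function.Injective ι → ∀ (d : ℕ) (Y R : Matrix (Fin d) (Fin d) Ω) (w : Fin d → Ω),
  (∀ v : Fin d → Ω, ∃ q : Polynomial Ω, v = (Polynomial.aeval R q) *ᵥ w) →
  ∀ v : Fin d → Ω', ∃ q : Polynomial Ω',
    v = (Polynomial.aeval (Y.map (ι.comp PowerSeries.C) +
      ι PowerSeries.X • R.map (ι.comp PowerSeries.C)) q) *ᵥ (ι.comp PowerSeries.C ∘ w)

/-- DIST: every matrix can be perturbed linearly to one with distinct eigenvalues. -/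
def T_DIST : Prop := ∀ (Ω : Type u) [Field Ω] [Infinite Ω] (d : ℕ) (Y : Matrix (Fin d) (Fin d) Ω),
  ∃ D : Matrix (Fin d) (Fin d) Ω, ∀ (Ω' : Type u) [Field Ω'] [IsAlgClosed Ω']
    (ι : PowerSeries Ω →+* Ω'), Function.Injective ι →
    ∃ (μ : Fin d → Ω') (U V : Matrix (Fin d) (Fin d) Ω'), Function.Injective μ ∧ U * V = 1 ∧
      Y.map (ι.comp PowerSeries.C) + ι PowerSeries.X • D.map (ι.comp PowerSeries.C) =
        U * Matrix.diagonal μ * V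

/-- HENS: roots of units in finite free algebras over `Ω[[t]]`. -/
def T_HENS : Prop := ∀ (Ω W : Type u) [Field Ω] [CommRing W] [Algebra (PowerSeries Ω) W]
  (d : ℕ) (_ : Module.Basis (Fin d) (PowerSeries Ω) W) (N : ℕ), (N : Ω) ≠ 0 →
  ∀ h r0 : W, IsUnit r0 →
  r0 ^ N - h ∈ Ideal.span {algebraMap (PowerSeries Ω) W PowerSeries.X} →
  ∃ r : W, r ^ N = h ∧ r - r0 ∈ Ideal.span {algebraMap (PowerSeries Ω) W PowerSeries.X}

/-- CONV: a commuting pair of matrices with a cyclic vector is a cyclic algebra. -/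
def T_CONV : Prop := ∀ (R : Type u) [CommRing R] (d : ℕ) (X Y : Matrix (Fin d) (Fin d) R)
  (v : Fin d → R), X * Y = Y * X →
  (∀ w : Fin d → R, ∃ M ∈ Algebra.adjoin R {X, Y}, w = M *ᵥ v) →
  ∃ (W : Type u) (_ : CommRing W) (_ : Algebra R W) (b : Module.Basis (Fin d) R W) (p q : W),
    Algebra.leftMulMatrix b p = X ∧ Algebra.leftMulMatrix b q = Y ∧ ⇑(b.repr 1) = v ∧
    Algebra.adjoin R {p, q} = ⊤

/-- ROOT: in a finite local algebra a root `r` of a unit `h` of a subalgebra lies in it. -/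
def T_ROOT : Prop := ∀ (Ω W : Type u) [Field Ω] [IsAlgClosed Ω] [CommRing W] [Algebra Ω W]
  [Module.Finite Ω W] (B : Subalgebra Ω W) (N : ℕ), (N : Ω) ≠ 0 → ∀ (r : W) (c : Ω), c ≠ 0 →
  IsNilpotent (r - algebraMap Ω W c) → r ^ N ∈ B → r ∈ B

/-- MT (Motzkin-Taussky-Fogarty): finite local algebras at smooth points are smoothable.
Deps RED CONJ NOND GEN DIST HENS CONV ROOT. -/
def T_MT : Prop := ∀ (k Ω : Type u) [Field k] [Field Ω] [IsAlgClosed k] [IsAlgClosed Ω]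
  [CharZero k] (κ : k →+* Ω) (W : Type u) [CommRing W] [Algebra Ω W] [Module.Finite Ω W]
  (p : Fin 3 → W), Algebra.adjoin Ω (Set.range p) = ⊤ → p 2 ^ 2 = p 0 ^ 4 + p 1 ^ 4 →
  ∀ q : Fin 3 → Ω, (q 0 ≠ 0 ∨ q 1 ≠ 0) → (∀ i, IsNilpotent (p i - algebraMap Ω W (q i))) →
  SmAt κ W p

/-- AWAY: finite algebras with support away from the origin are smoothable. Deps MT SUM. -/
def T_AWAY : Prop := ∀ (k Ω : Type u) [Field k] [Field Ω] [IsAlgClosed k] [IsAlgClosed Ω]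
  [CharZero k] (κ : k →+* Ω) (W : Type u) [CommRing W] [Algebra Ω W] [Module.Finite Ω W]
  (p : Fin 3 → W), Algebra.adjoin Ω (Set.range p) = ⊤ → p 2 ^ 2 = p 0 ^ 4 + p 1 ^ 4 →
  Ideal.span (Set.range p) = ⊤ → SmAt κ W p

/-- IDEM: splitting off the part at the origin. -/
def T_IDEM : Prop := ∀ (Ω W : Type u) [Field Ω] [CommRing W] [Algebra Ω W] [Module.Finite Ω W]
  (p : Fin 3 → W), ∃ (W1 W2 : Type u) (_ : CommRing W1) (_ : CommRing W2) (_ : Algebra Ω W1)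
    (_ : Algebra Ω W2) (e : W ≃ₐ[Ω] W1 × W2),
    (∀ i, IsNilpotent (e (p i)).1) ∧ Ideal.span (Set.range fun i => (e (p i)).2) = ⊤

/-! ## D. Families over `Ω[[t]]` -/

/-- FLAT: lifting of relations gives a free family. -/
def T_FLAT : Prop := ∀ (Ω A : Type u) [Field Ω] [CommRing A] [Algebra Ω A] (N : Type) [Fintype N]
  (f f' : N → A),
  (∀ g : N → A, ∑ i, g i * f i = 0 → ∃ G : N → PowerSeries A,
    (∀ i, PowerSeries.constantCoeff (G i) = g i) ∧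
    ∑ i, G i * (PowerSeries.C (f i) + PowerSeries.X * PowerSeries.C (f' i)) = 0) →
  ∀ (d : ℕ) (b : Module.Basis (Fin d) Ω (A ⧸ Ideal.span (Set.range f))) (β : Fin d → A),
  (∀ j, Ideal.Quotient.mk (Ideal.span (Set.range f)) (β j) = b j) →
  (∀ a : PowerSeries A, ∃ c : Fin d → PowerSeries Ω,
    a - ∑ j, PowerSeries.map (algebraMap Ω A) (c j) * PowerSeries.C (β j) ∈
      Ideal.span (Set.range fun i =>
        (PowerSeries.C (f i) + PowerSeries.X * PowerSeries.C (f' i) : PowerSeries A))) ∧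
  (∀ c : Fin d → PowerSeries Ω,
    ∑ j, PowerSeries.map (algebraMap Ω A) (c j) * PowerSeries.C (β j) ∈
      Ideal.span (Set.range fun i =>
        (PowerSeries.C (f i) + PowerSeries.X * PowerSeries.C (f' i) : PowerSeries A)) →
    c = 0)

/-- FINM: semicontinuity of cofiniteness. -/
def T_FINM : Prop := ∀ (Ω Ω' : Type u) [Field Ω] [Field Ω'] (ι : PowerSeries Ω →+* Ω'),
  Function.Injective ι → ∀ (n N : Type) [Fintype n] [Fintype N] (G0 G1 G2 : N → n → P2 Ω),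
  (∃ M : ℕ, ∀ ρ : n → P2 Ω, px Ω ^ M • ρ ∈ Submodule.span (P2 Ω) (Set.range G0) ∧
    py Ω ^ M • ρ ∈ Submodule.span (P2 Ω) (Set.range G0)) →
  ∃ M : ℕ, ∀ ρ : n → P2 Ω',
    px Ω' ^ M • ρ ∈ Submodule.span (P2 Ω') (Set.range fun i : N =>
      (mapP (ι.comp PowerSeries.C) ∘ G0 i) +
      cst (ι PowerSeries.X) • (mapP (ι.comp PowerSeries.C) ∘ G1 i) +
      cst (ι PowerSeries.X ^ 2) • (mapP (ι.comp PowerSeries.C) ∘ G2 i)) ∧
    py Ω' ^ M • ρ ∈ Submodule.span (P2 Ω') (Set.range fun i : N =>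
      (mapP (ι.comp PowerSeries.C) ∘ G0 i) +
      cst (ι PowerSeries.X) • (mapP (ι.comp PowerSeries.C) ∘ G1 i) +
      cst (ι PowerSeries.X ^ 2) • (mapP (ι.comp PowerSeries.C) ∘ G2 i))

/-- FAM (family principle). Deps FLAT FINM TAU EVN IDEM AWAY SUM CONJ. -/
def T_FAM : Prop := ∀ (k Ω Ω' : Type u) [Field k] [Field Ω] [Field Ω'] [IsAlgClosed k]
  [IsAlgClosed Ω] [IsAlgClosed Ω'] [CharZero k] (κ : k →+* Ω) (ι : PowerSeries Ω →+* Ω'),
  Function.Injective ι → ∀ (N : Type) [Fintype N] (f f' : N → AA Ω),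
  Cof (Ideal.span (Set.range f)) →
  (∀ g : N → AA Ω, ∑ i, g i * f i = 0 → ∃ G : N → PowerSeries (AA Ω),
    (∀ i, PowerSeries.constantCoeff (G i) = g i) ∧
    ∑ i, G i * (PowerSeries.C (f i) + PowerSeries.X * PowerSeries.C (f' i)) = 0) →
  Cof (Ideal.span (Set.range fun i => mapA (ι.comp PowerSeries.C) (f i) +
    algebraMap Ω' (AA Ω') (ι PowerSeries.X) * mapA (ι.comp PowerSeries.C) (f' i))) ∧
  (SmI ((ι.comp PowerSeries.C).comp κ) (Ideal.span (Set.range fun i =>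
      mapA (ι.comp PowerSeries.C) (f i) +
      algebraMap Ω' (AA Ω') (ι PowerSeries.X) * mapA (ι.comp PowerSeries.C) (f' i))) →
    SmI κ (Ideal.span (Set.range f)))

/-! ## E. Presentations -/

/-- FREEK: saturated submodules of free modules over `R[[y]]`, `R` a PID, are free. -/
def T_FREEK : Prop := ∀ (R : Type u) [CommRing R] [IsDomain R] [IsPrincipalIdealRing R] (n : ℕ)
  (K : Submodule (PowerSeries R) (Fin n → PowerSeries R)),
  (∀ v : Fin n → PowerSeries R, (PowerSeries.X : PowerSeries R) • v ∈ K → v ∈ K) →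
  ∃ m : ℕ, Nonempty (Module.Basis (Fin m) (PowerSeries R) K)

/-- EXIST: presentations exist. Deps FREEK. -/
def T_EXIST : Prop := ∀ (Ω : Type u) [Field Ω] (I : Ideal (AA Ω)), Cof I →
  ∃ (m : ℕ) (T : Matrix (Fin (2 * m)) (Fin (2 * m)) (P2 Ω))
    (lam : Fin (m + 1) → Fin (2 * m) → P2 Ω) (f : Fin (m + 1) → AA Ω),
    Pres T lam f ∧ Ideal.span (Set.range f) = I

/-- KER: the relations of the rows `lam i` are the multiples of `f`. Deps RS DOM. -/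
def T_KER : Prop := ∀ (Ω : Type u) [Field Ω] [IsAlgClosed Ω] [CharZero Ω] (m : ℕ) (n : Type)
  [Fintype n] [DecidableEq n] (T : Matrix n n (P2 Ω)) (lam : Fin (m + 1) → n → P2 Ω)
  (f : Fin (m + 1) → AA Ω), Pres T lam f → ∀ r : Fin (m + 1) → AA Ω, act T lam r = 0 →
  ∃ c : AA Ω, ∀ i, r i = c * f i

/-- SYZ: the syzygies of `f` are the `hat T (lam i) w`. Deps RS DOM. -/
def T_SYZ : Prop := ∀ (Ω : Type u) [Field Ω] [IsAlgClosed Ω] [CharZero Ω] (m : ℕ) (n : Type)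
  [Fintype n] [DecidableEq n] (T : Matrix n n (P2 Ω)) (lam : Fin (m + 1) → n → P2 Ω)
  (f : Fin (m + 1) → AA Ω), Pres T lam f → ∀ h : Fin (m + 1) → AA Ω, ∑ i, f i * h i = 0 →
  ∃ w : n → P2 Ω, ∀ i, h i = hat (g4 Ω) T (lam i) w

/-- CB: change of basis in a presentation. -/
def T_CB : Prop := ∀ (Ω : Type u) [Field Ω] (m : ℕ) (n n' : Type) [Fintype n] [DecidableEq n]
  [Fintype n'] [DecidableEq n'] (T : Matrix n n (P2 Ω)) (lam : Fin (m + 1) → n → P2 Ω)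
  (f : Fin (m + 1) → AA Ω) (S : Matrix n n' (P2 Ω)) (S' : Matrix n' n (P2 Ω)),
  S * S' = 1 → S' * S = 1 → Pres T lam f → Pres (S' * T * S) (fun i => lam i ᵥ* S) f

/-! ## F. The lift of ideals along a Hecke datum -/

/-- LIFT. -/
def T_LIFT : Prop := ∀ (P : Type u) [CommRing P] [IsDomain P] (g : P) (n N : Type) [Fintype n]
  [DecidableEq n] [Fintype N] (T : Matrix n n P) (lam : N → n → P)
  (f : N → QuadraticAlgebra P g 0) (D : HD g T), IsUnit (2 : P) →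
  T * T = g • (1 : Matrix n n P) → act T lam f = 0 →
  (∀ r : N → QuadraticAlgebra P g 0, act T lam r = 0 → ∃ c, ∀ i, r i = c * f i) →
  ∀ x y : P, x ≠ 0 → y ≠ 0 → (∀ a b, x * a = y * b → ∃ c, a = y * c ∧ b = x * c) →
  (∀ ρ : n → P, ∃ r : N → QuadraticAlgebra P g 0, act T lam r = x • ρ) →
  (∀ ρ : n → P, ∃ r : N → QuadraticAlgebra P g 0, act T lam r = y • ρ) →
  (∃ e : ℕ, ∀ ρ : n → P, ∃ r : N → QuadraticAlgebra P g 0, act T lam r = D.s ^ e • ρ) →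
  ∃ f' : N → QuadraticAlgebra P g 0,
    act T lam f' + act1 D.D1 lam f = 0 ∧ act1 D.D1 lam f' + act1 D.D2 lam f = 0 ∧
    act1 D.D2 lam f' = 0

/-- HID: `T_t^2 = g`. -/
def T_HID : Prop := ∀ (P : Type u) [CommRing P] [IsDomain P] (g : P) (n : Type) [Fintype n]
  [DecidableEq n] (T : Matrix n n P) (D : HD g T), T * T = g • (1 : Matrix n n P) →
  T * D.D1 + D.D1 * T = 0 ∧ T * D.D2 + D.D2 * T + D.D1 * D.D1 = 0 ∧
  D.D1 * D.D2 + D.D2 * D.D1 = 0 ∧ D.D2 * D.D2 = 0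

/-- STEP: a Hecke datum of a presentation gives a family. Deps KER SYZ LIFT HID FINM FAM RS. -/
def T_STEP : Prop := ∀ (k Ω Ω' : Type u) [Field k] [Field Ω] [Field Ω'] [IsAlgClosed k]
  [IsAlgClosed Ω] [IsAlgClosed Ω'] [CharZero k] (κ : k →+* Ω) (ι : PowerSeries Ω →+* Ω'),
  Function.Injective ι → ∀ (m : ℕ) (n : Type) [Fintype n] [DecidableEq n]
  (T : Matrix n n (P2 Ω)) (lam : Fin (m + 1) → n → P2 Ω) (f : Fin (m + 1) → AA Ω),
  Pres T lam f → ∀ D : HD (g4 Ω) T, ev0 D.s = 0 →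
  ∃ F : Fin (m + 1) → AA Ω',
    Pres (T.map (mapP (ι.comp PowerSeries.C)) +
      cst (ι PowerSeries.X) • D.D1.map (mapP (ι.comp PowerSeries.C)) +
      cst (ι PowerSeries.X ^ 2) • D.D2.map (mapP (ι.comp PowerSeries.C)))
      (fun i => mapP (ι.comp PowerSeries.C) ∘ lam i) F ∧
    (SmI ((ι.comp PowerSeries.C).comp κ) (Ideal.span (Set.range F)) →
      SmI κ (Ideal.span (Set.range f)))

/-! ## G. Existence of Hecke data -/

/-- TR0: matrices with `T^2 = g`, `g` not a square, have trace zero. -/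
def T_TR0 : Prop := ∀ (P : Type u) [CommRing P] [IsDomain P] (g : P) (n : Type) [Fintype n]
  [DecidableEq n] (T : Matrix n n P), (∀ p q : P, p ^ 2 = g * q ^ 2 → q = 0) →
  T * T = g • (1 : Matrix n n P) → T.trace = 0

/-- NBU (nonbranch data): `N` is `T` modulo `y`. Every primitive eigenvector is part of a
Hecke datum. -/
def T_NBU : Prop := ∀ (Ω : Type u) [Field Ω] [CharZero Ω] (n : Type) [Fintype n] [DecidableEq n]
  (a : Fin 5 → Ω) (T : Matrix n n (P2 Ω)), T * T = quart a • (1 : Matrix n n (P2 Ω)) →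
  T.trace = 0 → 4 ≤ Fintype.card n → ∀ z0 : Ω, z0 ^ 2 = a 0 → z0 ≠ 0 →
  ∀ u : n → PowerSeries Ω, (T.map PowerSeries.constantCoeff) *ᵥ u =
    (PowerSeries.C z0 * PowerSeries.X ^ 2) • u →
  (∃ i, PowerSeries.constantCoeff (u i) ≠ 0) →
  ∃ (φ : n → PowerSeries Ω) (D : HD (quart a) T), (∃ i, PowerSeries.constantCoeff (φ i) ≠ 0) ∧
    φ ᵥ* (T.map PowerSeries.constantCoeff) = (PowerSeries.C z0 * PowerSeries.X ^ 2) • φ ∧
    D.l = py Ω ∧ D.s = px Ω ∧ D.a = cst z0 * px Ω ^ 2 ∧ D.u = PowerSeries.C ∘ u ∧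
    D.φ = PowerSeries.C ∘ φ

/-- NB: consequence of the absence of good Hecke data in a nonbranch direction.
Deps NBU TR0. -/
def T_NB : Prop := ∀ (Ω : Type u) [Field Ω] [IsAlgClosed Ω] [CharZero Ω] (n : Type) [Fintype n]
  [DecidableEq n] (a : Fin 5 → Ω) (T : Matrix n n (P2 Ω)), a 0 ≠ 0 →
  (∀ p q : P2 Ω, p ^ 2 = quart a * q ^ 2 → q = 0) →
  T * T = quart a • (1 : Matrix n n (P2 Ω)) → T.map ev0 = 0 → 4 ≤ Fintype.card n →
  (∃ D : HD (quart a) T, ev0 D.s = 0 ∧ D.D1.map ev0 ≠ 0) ∨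
  ((∀ v : n → Ω, T.map lx *ᵥ v = 0 → T.map ly *ᵥ v = 0) ∧
   (∀ v : n → Ω, v ᵥ* T.map lx = 0 → v ᵥ* T.map ly = 0))

/-- BRU (branch data). -/
def T_BRU : Prop := ∀ (Ω : Type u) [Field Ω] [CharZero Ω] (n : Type) [Fintype n] [DecidableEq n]
  (a : Fin 5 → Ω) (T : Matrix n n (P2 Ω)), a 0 = 0 → a 1 ≠ 0 →
  T * T = quart a • (1 : Matrix n n (P2 Ω)) → 4 ≤ Fintype.card n →
  ∀ u : n → PowerSeries Ω, (T.map PowerSeries.constantCoeff) *ᵥ u = 0 →
  (∃ i, PowerSeries.constantCoeff (u i) ≠ 0) →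
  ∃ (φ : n → PowerSeries Ω) (D : HD (quart a) T), (∃ i, PowerSeries.constantCoeff (φ i) ≠ 0) ∧
    φ ᵥ* (T.map PowerSeries.constantCoeff) = 0 ∧
    D.l = py Ω ∧ D.s = px Ω ∧ D.a = 0 ∧ D.u = PowerSeries.C ∘ u ∧ D.φ = PowerSeries.C ∘ φ

/-- SAT: over `Ω[[x]]`, a square zero matrix `N` with `x^3 ker N ⊆ im N`: the reductions of the
kernel and of the left kernel are exact orthogonal complements of each other. -/
def T_SAT : Prop := ∀ (Ω : Type u) [Field Ω] (n : Type) [Fintype n] [DecidableEq n]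
  (N : Matrix n n (PowerSeries Ω)) (e : ℕ), N * N = 0 →
  (∀ u : n → PowerSeries Ω, N *ᵥ u = 0 → ∃ w, N *ᵥ w = (PowerSeries.X : PowerSeries Ω) ^ e • u) →
  ∀ v : n → Ω,
  (∀ φ : n → PowerSeries Ω, φ ᵥ* N = 0 →
    (fun i => PowerSeries.constantCoeff (φ i)) ⬝ᵥ v = 0) →
  ∃ u : n → PowerSeries Ω, N *ᵥ u = 0 ∧ ∀ i, PowerSeries.constantCoeff (u i) = v i

/-- BR: consequence of the absence of good Hecke data in a branch direction. Deps BRU SAT. -/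
def T_BR : Prop := ∀ (Ω : Type u) [Field Ω] [IsAlgClosed Ω] [CharZero Ω] (n : Type) [Fintype n]
  [DecidableEq n] (a : Fin 5 → Ω) (T : Matrix n n (P2 Ω)), a 0 = 0 → a 1 ≠ 0 →
  T * T = quart a • (1 : Matrix n n (P2 Ω)) → T.map ev0 = 0 → 4 ≤ Fintype.card n →
  (∃ D : HD (quart a) T, ev0 D.s = 0 ∧ D.D1.map ev0 ≠ 0) ∨
  (∀ v w : n → Ω, T.map lx *ᵥ v = T.map ly *ᵥ w → ∃ w', T.map ly *ᵥ v = T.map lx *ᵥ w')

/-- LA: linear algebra of pencils. -/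
def T_LA : Prop := ∀ (Ω : Type u) [Field Ω] [IsAlgClosed Ω] (n : Type) [Fintype n]
  [DecidableEq n] (X Y : Matrix n n Ω) (S : Finset Ω),
  (∀ c, c ∉ S → (∀ v : n → Ω, (X + c • Y) *ᵥ v = 0 → Y *ᵥ v = 0) ∧
    (∀ v : n → Ω, v ᵥ* (X + c • Y) = 0 → v ᵥ* Y = 0)) →
  (∀ v : n → Ω, Y *ᵥ v = 0 → X *ᵥ v = 0) → (∀ v : n → Ω, v ᵥ* Y = 0 → v ᵥ* X = 0) →
  (∀ c ∈ S, ∀ v w : n → Ω, (X + c • Y) *ᵥ v = Y *ᵥ w → ∃ w', Y *ᵥ v = (X + c • Y) *ᵥ w') →
  X = 0 ∧ Y = 0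

/-- XX: if `T(0) = 0` and the linear part of `T` is not zero, there is a Hecke datum with
`T_t(0) ≠ 0`. Deps NB BR LA AUT DOM. -/
def T_XX : Prop := ∀ (Ω : Type u) [Field Ω] [IsAlgClosed Ω] [CharZero Ω] (n : Type) [Fintype n]
  [DecidableEq n] (T : Matrix n n (P2 Ω)), T * T = g4 Ω • (1 : Matrix n n (P2 Ω)) →
  T.map ev0 = 0 → 4 ≤ Fintype.card n → (T.map lx ≠ 0 ∨ T.map ly ≠ 0) →
  ∃ D : HD (g4 Ω) T, ev0 D.s = 0 ∧ D.D1.map ev0 ≠ 0

/-- BB: the case of zero linear part. Deps NBU TR0 DOM. -/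
def T_BB : Prop := ∀ (Ω : Type u) [Field Ω] [IsAlgClosed Ω] [CharZero Ω] (n : Type) [Fintype n]
  [DecidableEq n] (T : Matrix n n (P2 Ω)), T * T = g4 Ω • (1 : Matrix n n (P2 Ω)) →
  T.map ev0 = 0 → T.map lx = 0 → T.map ly = 0 → 4 ≤ Fintype.card n →
  ∃ D : HD (g4 Ω) T, ev0 D.s = 0 ∧ D.D1.map ev0 = 0 ∧
    (D.D2.map ev0 ≠ 0 ∨ D.D1.map lx ≠ 0 ∨ D.D1.map ly ≠ 0)

/-! ## H. Free parts and the Hilbert-Burch case -/

/-- STRIP: splitting off a free summand. -/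
def T_STRIP : Prop := ∀ (Ω : Type u) [Field Ω] (r : ℕ)
  (T0 : Matrix (Fin (2 * (r + 1))) (Fin (2 * (r + 1))) (P2 Ω)),
  T0 * T0 = g4 Ω • (1 : Matrix _ _ (P2 Ω)) → T0.map ev0 ≠ 0 →
  ∃ (T1 : Matrix (Fin (2 * r)) (Fin (2 * r)) (P2 Ω))
    (S : Matrix (Fin (2 * (r + 1))) (Fin 2 ⊕ Fin (2 * r)) (P2 Ω))
    (S' : Matrix (Fin 2 ⊕ Fin (2 * r)) (Fin (2 * (r + 1))) (P2 Ω)),
    S * S' = 1 ∧ S' * S = 1 ∧ S' * T0 * S = Matrix.fromBlocks (JJ (g4 Ω)) 0 0 T1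

/-- FREE: a free syzygy module gives maximal minors. Deps KER RS DOM. -/
def T_FREE : Prop := ∀ (Ω : Type u) [Field Ω] [IsAlgClosed Ω] [CharZero Ω] (m : ℕ) (n : Type)
  [Fintype n] [DecidableEq n] (T : Matrix n n (P2 Ω)) (lam : Fin (m + 1) → n → P2 Ω)
  (f : Fin (m + 1) → AA Ω), Pres T lam f → ∀ w : Fin m → n → P2 Ω,
  (∀ v : n → P2 Ω, ∃ α β : Fin m → P2 Ω, v = ∑ j, (α j • w j + β j • (T *ᵥ w j))) →
  Ideal.span (Set.range f) =
    Ideal.span (Set.range (dl (Matrix.of fun i j => hat (g4 Ω) T (lam i) (w j))))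

/-- R1: exactly one non-free block of size two is impossible. Deps KER RS DOM. -/
def T_R1 : Prop := ∀ (Ω : Type u) [Field Ω] [IsAlgClosed Ω] [CharZero Ω] (m ρ : ℕ)
  (T0 : Matrix (Fin 2) (Fin 2) (P2 Ω)) (lam : Fin (m + 1) → (Fin 2 × Fin ρ) ⊕ Fin 2 → P2 Ω)
  (f : Fin (m + 1) → AA Ω), Pres (blk ρ T0) lam f → T0.map ev0 = 0 → False

/-- HBSYZ: syzygies of maximal minors. Deps RS DOM. -/
def T_HBSYZ : Prop := ∀ (Ω : Type u) [Field Ω] [IsAlgClosed Ω] [CharZero Ω] (m : ℕ)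
  (M : Matrix (Fin (m + 1)) (Fin m) (AA Ω)), Cof (Ideal.span (Set.range (dl M))) →
  ∀ g : Fin (m + 1) → AA Ω, ∑ i, g i * dl M i = 0 → ∃ c : Fin m → AA Ω, g = M *ᵥ c

/-- HBRED: a unit entry can be removed. -/
def T_HBRED : Prop := ∀ (A : Type u) [CommRing A] (m : ℕ)
  (M : Matrix (Fin (m + 2)) (Fin (m + 1)) A), IsUnit (M 0 0) →
  ∃ M' : Matrix (Fin (m + 1)) (Fin m) A,
    Ideal.span (Set.range (dl M')) = Ideal.span (Set.range (dl M))

/-- HBFAM: the family `M + t E_{00}`. Deps HBSYZ FAM. -/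
def T_HBFAM : Prop := ∀ (k Ω Ω' : Type u) [Field k] [Field Ω] [Field Ω'] [IsAlgClosed k]
  [IsAlgClosed Ω] [IsAlgClosed Ω'] [CharZero k] (κ : k →+* Ω) (ι : PowerSeries Ω →+* Ω'),
  Function.Injective ι → ∀ (m : ℕ) (M : Matrix (Fin (m + 2)) (Fin (m + 1)) (AA Ω)),
  Cof (Ideal.span (Set.range (dl M))) →
  Cof (Ideal.span (Set.range (dl (M.map (mapA (ι.comp PowerSeries.C)) +
    Matrix.single 0 0 (algebraMap Ω' (AA Ω') (ι PowerSeries.X)))))) ∧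
  (SmI ((ι.comp PowerSeries.C).comp κ) (Ideal.span (Set.range (dl
      (M.map (mapA (ι.comp PowerSeries.C)) +
        Matrix.single 0 0 (algebraMap Ω' (AA Ω') (ι PowerSeries.X)))))) →
    SmI κ (Ideal.span (Set.range (dl M))))

/-- HB: ideals of maximal minors are smoothable. Deps HBFAM HBRED. -/
def T_HB : Prop := ∀ (k Ω : Type u) [Field k] [Field Ω] [IsAlgClosed k] [IsAlgClosed Ω]
  [CharZero k] (κ : k →+* Ω) (m : ℕ) (M : Matrix (Fin (m + 1)) (Fin m) (AA Ω)),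
  Cof (Ideal.span (Set.range (dl M))) → SmI κ (Ideal.span (Set.range (dl M)))

/-! ## I. Main induction -/

/-- MAIN. Deps EXIST CB STRIP FREE R1 HB XX BB STEP. -/
def T_MAIN : Prop := ∀ (k Ω : Type u) [Field k] [Field Ω] [IsAlgClosed k] [IsAlgClosed Ω]
  [CharZero k] (κ : k →+* Ω) (I : Ideal (AA Ω)), Cof I → SmI κ I

/-- ALL: every finite algebra on the surface is smoothable. Deps MAIN AWAY IDEM SUM EVN CONJ. -/
def T_ALL : Prop := ∀ (k Ω : Type u) [Field k] [Field Ω] [IsAlgClosed k] [IsAlgClosed Ω]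
  [CharZero k] (κ : k →+* Ω) (W : Type u) [CommRing W] [Algebra Ω W] [Module.Finite Ω W]
  (p : Fin 3 → W), Algebra.adjoin Ω (Set.range p) = ⊤ → p 2 ^ 2 = p 0 ^ 4 + p 1 ^ 4 →
  SmAt κ W p

/-! ## J. Irreducibility -/

/-- IRR: smoothability of all algebras implies irreducibility of the Hilbert schemes (closed
points, Zariski topology). Deps NORM. -/
def T_IRR : Prop := T_NORM.{u} → T_ALL.{u} → ∀ (k : Type u) [Field k] [IsAlgClosed k]
  [CharZero k] (d : ℕ), 1 ≤ d → IrreducibleSpace (HilbPt k (SurfRing k) d)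

/-- FUN: every scheme representing the Hilbert functor is irreducible. Deps NORM. -/
def T_FUN : Prop := T_NORM.{u} → T_ALL.{u} → ∀ (k : Type u) [Field k] [IsAlgClosed k]
  [CharZero k] (d : ℕ), 1 ≤ d → ∀ (H : AlgebraicGeometry.Scheme.{u})
    (s : H ⟶ AlgebraicGeometry.Spec (CommRingCat.of k)),
    IsHilbertScheme k (SurfRing k) d H s → IrreducibleSpace H

end Pool.Agent.H12.HS
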