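import Pool.Agent.H80.HS.Targets

set_option autoImplicit false

namespace Pool.Agent.H12.HS.V1

open MeasureTheory Set Pool.Agent.H80.HS
open scoped ContDiff ENNReal

variable {n : ℕ}

/-- flow of `Y_j` -/
noncomputable def mA (j : Fin n) (a : ℝ) (p : H n) : H n :=
  (p.1, p.2.1 + a • EuclideanSpace.single j (1 : ℝ), p.2.2 - 2 * a * p.1 j)

/-- flow of `X_j` -/
noncomputable def mB (j : Fin n) (a : ℝ) (p : H n) : H n :=
  (p.1 + a • EuclideanSpace.single j (1 : ℝ), p.2.1, p.2.2 + 2 * a * p.2.1 j)

theorem cont_mA (j : Fin n) (a : ℝ) : Continuous (mA j a) := by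
  unfold mA
  fun_prop

theorem cont_mB (j : Fin n) (a : ℝ) : Continuous (mB j a) := by
  unfold mB
  fun_prop

theorem mp_mA (j : Fin n) (a : ℝ) : MeasurePreserving (mA j a) volume volume := by
  have h := (MeasurePreserving.id (volume : Measure (V n))).skew_product
    (μc := (volume : Measure (V n × ℝ))) (μd := (volume : Measure (V n × ℝ)))
    (g := fun x q => (q.1 + a • EuclideanSpace.single j (1 : ℝ), q.2 - 2 * a * x j))
    (by
      have : Continuous (Function.uncurry fun (x : V n) (q : V n × ℝ) =>
        (q.1 + a • EuclideanSpace.single j (1 : ℝ), q.2 - 2 * a * x j)) := by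
        simp only [Function.uncurry_def]
        fun_prop
      exact this.measurable)
    (Filter.Eventually.of_forall fun x => by
      exact ((measurePreserving_add_right (volume : Measure (V n))
        (a • EuclideanSpace.single j (1 : ℝ))).prod
        (measurePreserving_sub_right (volume : Measure ℝ) (2 * a * x j))).map_eq)
  exact h

theorem mp_mB (j : Fin n) (a : ℝ) : MeasurePreserving (mB j a) volume volume := by
  have h0 : MeasurePreserving (fun q : V n × ℝ => (q.1, q.2 + 2 * a * q.1 j)) volume volume := by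
    have h := (MeasurePreserving.id (volume : Measure (V n))).skew_product
      (μc := (volume : Measure ℝ)) (μd := (volume : Measure ℝ))
      (g := fun y t => t + 2 * a * y j)
      (by
        have : Continuous (Function.uncurry fun (y : V n) (t : ℝ) => t + 2 * a * y j) := by
          simp only [Function.uncurry_def]
          fun_prop
        exact this.measurable)
      (Filter.Eventually.of_forall fun y => map_add_right_eq_self (volume : Measure ℝ) _)
    exact h
  exact (measurePreserving_add_right (volume : Measure (V n))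
    (a • EuclideanSpace.single j (1 : ℝ))).prod h0

theorem int_comp {Ψ : H n → H n} (hΨ : MeasurePreserving Ψ volume volume) {F : H n → ℝ}
    (hF : Continuous F) : ∫ p, F (Ψ p) = ∫ p, F p := by
  rw [← integral_map hΨ.measurable.aemeasurable
    (by rw [hΨ.map_eq]; exact hF.aestronglyMeasurable), hΨ.map_eq]

theorem int_add4 {F1 F2 F3 F4 : H n → ℝ} (h1 : Integrable F1) (h2 : Integrable F2)
    (h3 : Integrable F3) (h4 : Integrable F4) :
    ∫ p, (F1 p + F2 p + F3 p + F4 p) = (∫ p, F1 p) + (∫ p, F2 p) + (∫ p, F3 p) + ∫ p, F4 p := by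
  have h12 : Integrable (fun p => F1 p + F2 p) := h1.add h2
  have h123 : Integrable (fun p => F1 p + F2 p + F3 p) := h12.add h3
  rw [integral_add h123 h4, integral_add h12 h3, integral_add h1 h2]

theorem v1 : T_V0 → T_V1 := by
  intro h0 n hn v σ hv hc hσ
  set j : Fin n := ⟨0, hn⟩ with hj
  set a : ℝ := Real.sqrt σ / 2 with ha
  have ha0 : 0 ≤ a := by positivity
  have hvc : Continuous v := hv.continuous
  have hvi : Integrable v := hvc.integrable_of_hasCompactSupport hc
  have hX : ∫ p, ‖X v j p‖ ≤ ∫ p, grad v p :=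
    integral_mono_of_nonneg (Filter.Eventually.of_forall fun p => norm_nonneg _)
      (integrable_grad hv hc) (Filter.Eventually.of_forall fun p =>
        (norm_X_le_gX v j p).trans (gX_le_grad v p))
  have hY : ∫ p, ‖Y v j p‖ ≤ ∫ p, grad v p :=
    integral_mono_of_nonneg (Filter.Eventually.of_forall fun p => norm_nonneg _)
      (integrable_grad hv hc) (Filter.Eventually.of_forall fun p =>
        (norm_Y_le_gY v j p).trans (gY_le_grad v p))
  have hA : ∀ b : ℝ, |b| = a → ∫ p, |v (mA j b p) - v p| ≤ a * ∫ p, grad v p := by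
    intro b hb
    have h1 := (h0 n v b j hv hc).2
    rw [hb] at h1
    exact h1.trans (mul_le_mul_of_nonneg_left hY ha0)
  have hB : ∀ b : ℝ, |b| = a → ∫ p, |v (mB j b p) - v p| ≤ a * ∫ p, grad v p := by
    intro b hb
    have h1 := (h0 n v b j hv hc).1
    rw [hb] at h1
    exact h1.trans (mul_le_mul_of_nonneg_left hX ha0)
  have ha1 : |a| = a := abs_of_nonneg ha0
  have ha2 : |-a| = a := by rw [abs_neg, ha1]
  have hcA : ∀ b, Continuous fun p => |v (mA j b p) - v p| := fun b =>
    ((hvc.comp (cont_mA j b)).sub hvc).abs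
  have hcB : ∀ b, Continuous fun p => |v (mB j b p) - v p| := fun b =>
    ((hvc.comp (cont_mB j b)).sub hvc).abs
  have hiA : ∀ b, Integrable fun p => |v (mA j b p) - v p| := fun b =>
    (((mp_mA j b).integrable_comp hvc.aestronglyMeasurable).2 hvi |>.sub hvi).abs
  have hiB : ∀ b, Integrable fun p => |v (mB j b p) - v p| := fun b =>
    (((mp_mB j b).integrable_comp hvc.aestronglyMeasurable).2 hvi |>.sub hvi).abs
  -- the three compositions
  have hm1 : MeasurePreserving (mA j a) volume volume := mp_mA j a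
  have hm2 : MeasurePreserving (fun p => mB j a (mA j a p)) volume volume :=
    (mp_mB j a).comp hm1
  have hm3 : MeasurePreserving (fun p => mA j (-a) (mB j a (mA j a p))) volume volume :=
    (mp_mA j (-a)).comp hm2
  have hfin : ∀ p : H n, mB j (-a) (mA j (-a) (mB j a (mA j a p))) =
      (p.1, p.2.1, p.2.2 + σ) := by
    intro p
    have hs : Real.sqrt σ * Real.sqrt σ = σ := Real.mul_self_sqrt hσ
    refine Prod.ext ?_ (Prod.ext ?_ ?_)
    · simp [mA, mB]
    · simp [mA, mB]
    · simp [mA, mB]
      rw [ha]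
      linear_combination hs
  have e2 : ∫ p, |v (mB j a (mA j a p)) - v (mA j a p)| = ∫ p, |v (mB j a p) - v p| :=
    int_comp hm1 (hcB a)
  have e3 : ∫ p, |v (mA j (-a) (mB j a (mA j a p))) - v (mB j a (mA j a p))| =
      ∫ p, |v (mA j (-a) p) - v p| := int_comp hm2 (hcA (-a))
  have e4 : ∫ p, |v (mB j (-a) (mA j (-a) (mB j a (mA j a p)))) -
      v (mA j (-a) (mB j a (mA j a p)))| = ∫ p, |v (mB j (-a) p) - v p| :=
    int_comp hm3 (hcB (-a))
  have i2 : Integrable fun p => |v (mB j a (mA j a p)) - v (mA j a p)| :=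
    (hm1.integrable_comp (hcB a).aestronglyMeasurable).2 (hiB a)
  have i3 : Integrable fun p => |v (mA j (-a) (mB j a (mA j a p))) - v (mB j a (mA j a p))| :=
    (hm2.integrable_comp (hcA (-a)).aestronglyMeasurable).2 (hiA (-a))
  have i4 : Integrable fun p => |v (mB j (-a) (mA j (-a) (mB j a (mA j a p)))) -
      v (mA j (-a) (mB j a (mA j a p)))| :=
    (hm3.integrable_comp (hcB (-a)).aestronglyMeasurable).2 (hiB (-a))
  have hle : ∫ p : H n, |v (p.1, p.2.1, p.2.2 + σ) - v p| ≤
      ∫ p, (|v (mB j (-a) (mA j (-a) (mB j a (mA j a p)))) -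
        v (mA j (-a) (mB j a (mA j a p)))| +
        |v (mA j (-a) (mB j a (mA j a p))) - v (mB j a (mA j a p))| +
        |v (mB j a (mA j a p)) - v (mA j a p)| + |v (mA j a p) - v p|) := by
    refine integral_mono_of_nonneg (Filter.Eventually.of_forall fun p => abs_nonneg _)
      (((i4.add i3).add i2).add (hiA a)) (Filter.Eventually.of_forall fun p => ?_)
    show |v (p.1, p.2.1, p.2.2 + σ) - v p| ≤ _
    rw [← hfin p]
    have t1 := abs_sub_le (v (mB j (-a) (mA j (-a) (mB j a (mA j a p)))))
      (v (mA j (-a) (mB j a (mA j a p)))) (v p)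
    have t2 := abs_sub_le (v (mA j (-a) (mB j a (mA j a p)))) (v (mB j a (mA j a p))) (v p)
    have t3 := abs_sub_le (v (mB j a (mA j a p))) (v (mA j a p)) (v p)
    linarith
  rw [int_add4 i4 i3 i2 (hiA a), e2, e3, e4] at hle
  have f1 := hA a ha1
  have f2 := hB a ha1
  have f3 := hA (-a) ha2
  have f4 := hB (-a) ha2
  have f5 : 2 * Real.sqrt σ * ∫ p, grad v p = 4 * (a * ∫ p, grad v p) := by
    rw [ha]; ring
  rw [f5]
  linarith

end Pool.Agent.H12.HS.V1
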