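import Pool.Agent.H80.HS.Targets

set_option autoImplicit false

namespace Pool.Agent.H12.HS.V2

open MeasureTheory Set Pool.Agent.H80.HS
open scoped ContDiff ENNReal Topology

variable {n : ℕ}

theorem shift_eq (p : H n) (σ : ℝ) :
    (p.1, p.2.1, p.2.2 + σ) = p + ((0 : V n), (0 : V n), σ) := by
  refine Prod.ext ?_ (Prod.ext ?_ ?_) <;> simp

theorem v2 : T_V2 := by
  intro n v h hv hc hh
  set τ : ℝ → H n := fun σ => ((0 : V n), (0 : V n), σ) with hτ
  have hτc : Continuous τ := by rw [hτ]; fun_prop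
  have hsm : sm h v = fun p => (1 / h) * ∫ σ in (0 : ℝ)..h, v (p + τ σ) := by
    funext p
    unfold sm
    simp only [shift_eq]
    rfl
  have hfc : Continuous (fderiv ℝ v) := hv.continuous_fderiv one_ne_zero
  obtain ⟨C, hC⟩ := hfc.bounded_above_of_compact_support (hc.fderiv ℝ)
  have hcv : ∀ p : H n, Continuous fun σ => v (p + τ σ) := fun p =>
    hv.continuous.comp (continuous_const.add hτc)
  have hcf : ∀ p : H n, Continuous fun σ => fderiv ℝ v (p + τ σ) := fun p =>
    hfc.comp (continuous_const.add hτc)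
  have hder : ∀ p : H n, HasFDerivAt (fun p => ∫ σ in (0 : ℝ)..h, v (p + τ σ))
      (∫ σ in (0 : ℝ)..h, fderiv ℝ v (p + τ σ)) p := by
    intro p
    refine intervalIntegral.hasFDerivAt_integral_of_dominated_of_fderiv_le
      (F := fun p σ => v (p + τ σ)) (F' := fun p σ => fderiv ℝ v (p + τ σ))
      (s := Set.univ) (bound := fun _ => C) Filter.univ_mem ?_ ?_ ?_ ?_ ?_ ?_
    · exact Filter.Eventually.of_forall fun q => (hcv q).aestronglyMeasurable
    · exact (hcv p).intervalIntegrable _ _
    · exact (hcf p).aestronglyMeasurable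
    · exact Filter.Eventually.of_forall fun σ _ q _ => hC _
    · exact intervalIntegrable_const
    · refine Filter.Eventually.of_forall fun σ _ q _ => ?_
      exact (hasFDerivAt_comp_add_right (τ σ)).2
        ((hv.differentiable one_ne_zero).differentiableAt.hasFDerivAt)
  have hder2 : ∀ p : H n, HasFDerivAt (sm h v)
      ((1 / h) • ∫ σ in (0 : ℝ)..h, fderiv ℝ v (p + τ σ)) p := by
    intro p
    rw [hsm]
    exact (hder p).const_mul (1 / h)
  have hcont : Continuous fun p : H n => (1 / h) • ∫ σ in (0 : ℝ)..h, fderiv ℝ v (p + τ σ) := by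
    have h3 : Continuous fun p : H n => ∫ σ in (0 : ℝ)..h, fderiv ℝ v (p + τ σ) := ?_
    · exact h3.const_smul (1 / h)
    refine intervalIntegral.continuous_parametric_intervalIntegral_of_continuous'
      (f := fun (p : H n) σ => fderiv ℝ v (p + τ σ)) ?_ 0 h
    exact hfc.comp (continuous_fst.add (hτc.comp continuous_snd))
  refine ⟨contDiff_one_iff_hasFDerivAt.2 ⟨_, hcont, hder2⟩, ?_, ?_⟩
  · have hK : IsCompact ((fun q : H n × ℝ => q.1 - τ q.2) '' (tsupport v ×ˢ Icc 0 h)) := by
      refine (hc.isCompact.prod isCompact_Icc).image ?_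
      exact continuous_fst.sub (hτc.comp continuous_snd)
    refine HasCompactSupport.intro hK fun p hp => ?_
    rw [hsm]
    have h0 : ∫ σ in (0 : ℝ)..h, v (p + τ σ) = ∫ σ in (0 : ℝ)..h, (0 : ℝ) := by
      refine intervalIntegral.integral_congr fun σ hσ => ?_
      rw [uIcc_of_le hh.le] at hσ
      show v (p + τ σ) = 0
      by_contra hne
      refine hp ⟨(p + τ σ, σ), ⟨subset_tsupport _ hne, hσ⟩, ?_⟩
      show p + τ σ - τ σ = p
      exact add_sub_cancel_right _ _
    show (1 / h) * ∫ σ in (0 : ℝ)..h, v (p + τ σ) = 0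
    rw [h0]
    simp
  · intro p q
    rw [(hder2 p).fderiv]
    simp only [shift_eq]
    rw [smul_apply,
      ContinuousLinearMap.intervalIntegral_apply ((hcf p).intervalIntegrable _ _), smul_eq_mul]

end Pool.Agent.H12.HS.V2
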